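import Pool.Agent.H853.Root2

/-!
# Extension of the field: skew matrices, irreducibility
-/

set_option linter.unusedSectionVars false

namespace Pool.Agent.H853.Root

open Module Matrix Pool.Agent.Y127.I

section gen

variable {F L U U' : Type} [Field F] [Field L] [AddCommGroup U] [Module F U] [AddCommGroup U']
  [Module L U']

theorem descend (σ : F →+* L) (j : U →ₛₗ[σ] U')
    (hj : ∀ φ : U →ₗ[F] F, ∃ φ' : U' →ₗ[L] L, ∀ u, φ' (j u) = σ (φ u)) {M : Submodule F U} {u : U}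
    (h : j u ∈ Submodule.span L (j '' M)) : u ∈ M := by
  by_contra hu
  obtain ⟨φ, hφ, hM⟩ := Submodule.exists_le_ker_of_notMem hu
  obtain ⟨φ', hφ'⟩ := hj φ
  have h1 : Submodule.span L (j '' M) ≤ LinearMap.ker φ' := by
    rw [Submodule.span_le]
    rintro _ ⟨x, hx, rfl⟩
    have h3 : φ x = 0 := hM hx
    change φ' (j x) = 0
    rw [hφ', h3, map_zero]
  have h3 : φ' (j u) = 0 := h1 h
  rw [hφ', map_eq_zero] at h3
  exact hφ h3

end gen

variable {F L : Type} [Field F] [Field L] {m : ℕ} {Γ : Type} [Group Γ]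

/-- Extension of scalars for vectors. -/
def jv (σ : F →+* L) : (Fin m → F) →ₛₗ[σ] (Fin m → L) where
  toFun x := fun i => σ (x i)
  map_add' x y := by funext i; exact map_add σ _ _
  map_smul' c x := by funext i; exact map_mul σ _ _

/-- Extension of scalars for matrices. -/
def jm (σ : F →+* L) : Matrix (Fin m) (Fin m) F →ₛₗ[σ] Matrix (Fin m) (Fin m) L where
  toFun X := X.map σ
  map_add' X Y := Matrix.map_add σ (map_add σ) X Y
  map_smul' c X := by ext i j; simp

theorem jv_apply (σ : F →+* L) (x : Fin m → F) (i : Fin m) : jv σ x i = σ (x i) := rfl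

theorem jm_apply (σ : F →+* L) (X : Matrix (Fin m) (Fin m) F) : jm σ X = X.map σ := rfl

theorem hjv (σ : F →+* L) (φ : (Fin m → F) →ₗ[F] F) :
    ∃ φ' : (Fin m → L) →ₗ[L] L, ∀ u, φ' (jv σ u) = σ (φ u) := by
  refine ⟨∑ i, σ (φ (Pi.single i 1)) • LinearMap.proj i, fun u => ?_⟩
  conv_rhs => rw [pi_eq_sum_univ' u]
  rw [LinearMap.sum_apply, map_sum, map_sum]
  refine Finset.sum_congr rfl fun i _ => ?_
  rw [LinearMap.smul_apply, LinearMap.proj_apply, jv_apply, smul_eq_mul, map_smul, smul_eq_mul,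
    map_mul, mul_comm]

theorem hjm (σ : F →+* L) (φ : Matrix (Fin m) (Fin m) F →ₗ[F] F) :
    ∃ φ' : Matrix (Fin m) (Fin m) L →ₗ[L] L, ∀ u, φ' (jm σ u) = σ (φ u) := by
  refine ⟨
    { toFun := fun Y => ∑ i, ∑ k, σ (φ (Matrix.single i k 1)) * Y i k
      map_add' := ?_
      map_smul' := ?_ }, fun u => ?_⟩
  · intro X Y
    simp only [Matrix.add_apply, mul_add, Finset.sum_add_distrib]
  · intro c X
    simp only [Matrix.smul_apply, smul_eq_mul, Finset.mul_sum, RingHom.id_apply]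
    refine Finset.sum_congr rfl fun i _ => Finset.sum_congr rfl fun k _ => ?_
    ring
  · conv_rhs => rw [Matrix.matrix_eq_sum_single u]
    change ∑ i, ∑ k, σ (φ (Matrix.single i k 1)) * (jm σ u) i k = _
    rw [map_sum, map_sum]
    refine Finset.sum_congr rfl fun i _ => ?_
    rw [map_sum, map_sum]
    refine Finset.sum_congr rfl fun k _ => ?_
    have h1 : Matrix.single i k (u i k) = u i k • (Matrix.single i k 1 : Matrix _ _ F) := by
      rw [Matrix.smul_single, smul_eq_mul, mul_one]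
    rw [h1, map_smul, smul_eq_mul, map_mul, jm_apply, Matrix.map_apply, mul_comm]

theorem bil_map (σ : F →+* L) (A : Matrix (Fin m) (Fin m) F) (x y : Fin m → F) :
    bil (A.map σ) (jv σ x) (jv σ y) = σ (bil A x y) := by
  rw [bil_apply, bil_apply]
  have h1 : (A.map σ) *ᵥ (jv σ y) = fun i => σ ((A *ᵥ y) i) := by
    funext i
    exact (RingHom.map_mulVec σ A y i).symm
  rw [h1, dotProduct, dotProduct, map_sum]
  exact Finset.sum_congr rfl fun i _ => (map_mul σ _ _).symm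

theorem wl_map (σ : F →+* L) (A : Matrix (Fin m) (Fin m) F) (x y : Fin m → F) :
    wl (bil (A.map σ)) (jv σ x) (jv σ y) = bc σ (wl (bil A) x y) := by
  refine (Pi.basisFun L (Fin m)).ext fun i => ?_
  have h1 : (Pi.basisFun L (Fin m)) i = jv σ (Pi.single i 1) := by
    rw [Pi.basisFun_apply]
    funext k
    rw [jv_apply, Pi.single_apply, Pi.single_apply]
    split_ifs
    · rw [map_one]
    · rw [map_zero]
  rw [h1, wl_apply, bil_map, bil_map]
  have h3 := bc_vec σ (wl (bil A) x y) (Pi.single i 1)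
  change bc σ (wl (bil A) x y) (jv σ (Pi.single i 1)) = _ at h3
  rw [h3, wl_apply]
  funext k
  simp [jv_apply]

theorem soM_map (σ : F →+* L) {A X : Matrix (Fin m) (Fin m) F} (hX : X ∈ soM A) :
    X.map σ ∈ soM (A.map σ) := by
  rw [mem_soM] at hX ⊢
  have h1 := congrArg (fun Y : Matrix (Fin m) (Fin m) F => Y.map σ) hX
  simp only [Matrix.map_add σ (map_add σ), Matrix.map_mul] at h1
  rw [Matrix.transpose_map] at h1
  rw [h1]
  ext i j
  simp

theorem det_map_ne (σ : F →+* L) {A : Matrix (Fin m) (Fin m) F} (hd : A.det ≠ 0) :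
    (A.map σ).det ≠ 0 := by
  have h3 : (A.map σ).det = σ A.det := (RingHom.map_det σ A).symm
  rw [h3]
  exact (map_ne_zero σ).2 hd

theorem symm_map (σ : F →+* L) {A : Matrix (Fin m) (Fin m) F} (hA : A.IsSymm) :
    (A.map σ).IsSymm := by
  rw [Matrix.IsSymm, ← Matrix.transpose_map, hA.eq]

/-- The skew matrices over the larger field are spanned by those over the smaller field. -/
theorem soM_span (σ : F →+* L) {A : Matrix (Fin m) (Fin m) F} (hA : A.IsSymm) (hd : A.det ≠ 0)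
    (h2 : (2 : F) ≠ 0) {M' : Submodule L (Matrix (Fin m) (Fin m) L)}
    (h : ∀ X ∈ soM A, X.map σ ∈ M') : soM (A.map σ) ≤ M' := by
  obtain ⟨v, hv, hb⟩ := exists_ob hA hd h2
  have h2' : (2 : L) ≠ 0 := by
    have h1 := (map_ne_zero σ).2 h2
    rwa [map_ofNat] at h1
  have hv' : ∀ i j, i ≠ j → bil (A.map σ) (jv σ (v i)) (jv σ (v j)) = 0 := by
    intro i j hij
    rw [bil_map, hv i j hij, map_zero]
  have hb' : ∀ i, bil (A.map σ) (jv σ (v i)) (jv σ (v i)) ≠ 0 := by
    intro i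
    rw [bil_map]
    exact (map_ne_zero σ).2 (hb i)
  have hli : LinearIndependent L fun i => jv σ (v i) := by
    rw [Fintype.linearIndependent_iff]
    intro f hf j
    have h1 := congrArg (fun x => bil (A.map σ) x (jv σ (v j))) hf
    simp only [map_sum, map_smul, map_zero, LinearMap.zero_apply] at h1
    rw [LinearMap.sum_apply, Finset.sum_eq_single j] at h1
    · rw [LinearMap.smul_apply, smul_eq_mul] at h1
      exact (mul_eq_zero.1 h1).resolve_right (hb' j)
    · intro i _ hij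
      rw [LinearMap.smul_apply, hv' i j hij, smul_zero]
    · intro h3
      exact absurd (Finset.mem_univ j) h3
  let v' : Basis (Fin m) L (Fin m → L) := basisOfLinearIndependentOfCardEqFinrank' _ hli (by simp)
  have hvv : ∀ i, v' i = jv σ (v i) := fun i => by
    rw [coe_basisOfLinearIndependentOfCardEqFinrank']
  have hle : so (bil (A.map σ)) ≤ opS M' := by
    refine so_le_of_wl v' (fun i j hij => by rw [hvv, hvv]; exact hv' i j hij)
      (fun i => by rw [hvv]; exact hb' i) (bil_symm (symm_map σ hA)) h2' fun i j _ => ?_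
    rw [hvv, hvv, wl_map, bc_apply, toLin_mem_opS]
    apply h
    rw [← toLin_mem_so, toLin'_toMatrix']
    exact wl_mem (bil_symm hA) _ _
  intro X hX
  rw [← toLin_mem_opS]
  exact hle (toLin_mem_so.2 hX)

/-- Irreducibility of the skew matrices descends. -/
theorem irr_descend (σ : F →+* L) {A : Matrix (Fin m) (Fin m) F}
    {r r' : Γ → Matrix (Fin m) (Fin m) F}
    (h : ∀ M' : Submodule L (Matrix (Fin m) (Fin m) L), M' ≤ soM (A.map σ) →
      (∀ γ, ∀ X ∈ M', (r γ).map σ * X * (r' γ).map σ ∈ M') → M' = ⊥ ∨ M' = soM (A.map σ))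
    {M : Submodule F (Matrix (Fin m) (Fin m) F)} (hM : M ≤ soM A)
    (hst : ∀ γ, ∀ X ∈ M, r γ * X * r' γ ∈ M) : M = ⊥ ∨ M = soM A := by
  rcases h (Submodule.span L (jm σ '' M)) (by
      rw [Submodule.span_le]
      rintro _ ⟨X, hX, rfl⟩
      exact soM_map σ (hM hX)) (by
      intro γ X hX
      induction hX using Submodule.span_induction with
      | mem X hX =>
        obtain ⟨Y, hY, rfl⟩ := hX
        refine Submodule.subset_span ⟨_, hst γ Y hY, ?_⟩
        rw [jm_apply, jm_apply, Matrix.map_mul, Matrix.map_mul]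
      | zero => rw [mul_zero, zero_mul]; exact Submodule.zero_mem _
      | add X Y _ _ hX hY => rw [mul_add, add_mul]; exact Submodule.add_mem _ hX hY
      | smul c X _ hX =>
        rw [mul_smul_comm, smul_mul_assoc]; exact Submodule.smul_mem _ _ hX) with h1 | h1
  · left
    rw [eq_bot_iff]
    intro X hX
    have h3 : jm σ X ∈ Submodule.span L (jm σ '' M) := Submodule.subset_span ⟨X, hX, rfl⟩
    rw [h1, Submodule.mem_bot, jm_apply] at h3
    rw [Submodule.mem_bot]
    ext i j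
    have h4 := congrFun (congrFun h3 i) j
    rw [Matrix.map_apply, Matrix.zero_apply, map_eq_zero] at h4
    rw [h4, Matrix.zero_apply]
  · right
    refine le_antisymm hM fun X hX => ?_
    apply descend σ (jm σ) (hjm σ)
    rw [h1]
    exact soM_map σ hX

/-- Irreducibility of the standard representation over the larger field. -/
theorem std_map (σ : F →+* L) {A : Matrix (Fin m) (Fin m) F} (hA : A.IsSymm) (hd : A.det ≠ 0)
    (h2 : (2 : F) ≠ 0) (hm : 3 ≤ m) {W : Submodule L (Fin m → L)}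
    (h : ∀ X ∈ soM A, X.map σ ∈ stM W) : W = ⊥ ∨ W = ⊤ := by
  have h2' : (2 : L) ≠ 0 := by
    have h1 := (map_ne_zero σ).2 h2
    rwa [map_ofNat] at h1
  exact std_irr (symm_map σ hA) (det_map_ne σ hd) h2' hm fun Y hY => soM_span σ hA hd h2 h hY

/-- The matrices over the smaller field which preserve a subspace. -/
def stF (σ : F →+* L) (W : Submodule L (Fin m → L)) : Submodule F (Matrix (Fin m) (Fin m) F) where
  carrier := {X | X.map σ ∈ stM W}
  zero_mem' := by
    change jm σ 0 ∈ stM W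
    rw [map_zero]
    exact (stM W).zero_mem
  add_mem' := by
    intro X Y hX hY
    change jm σ (X + Y) ∈ stM W
    rw [map_add]
    exact (stM W).add_mem hX hY
  smul_mem' := by
    intro c X hX
    change jm σ (c • X) ∈ stM W
    rw [map_smulₛₗ]
    exact (stM W).smul_mem _ hX

theorem mem_stF {σ : F →+* L} {W : Submodule L (Fin m → L)} {X : Matrix (Fin m) (Fin m) F} :
    X ∈ stF σ W ↔ X.map σ ∈ stM W := Iff.rfl

theorem one_mem_stF (σ : F →+* L) (W : Submodule L (Fin m → L)) :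
    (1 : Matrix (Fin m) (Fin m) F) ∈ stF σ W := by
  rw [mem_stF, Matrix.map_one _ (map_zero _) (map_one _)]
  exact one_mem_stM W

section big

variable {p : ℕ} [hp : Fact p.Prime]

/-- **Strong absolute irreducibility over `ℚ_p`.** -/
theorem abs_padic (σ : ℚ_[p] →+* L) {a : Matrix (Fin m) (Fin m) ℤ_[p]} (ha : a.IsSymm)
    (hd : a.det ≠ 0)
    (hm : 3 ≤ m) {ρ : Γ →* GL (Fin m) ℤ_[p]} {C : ℕ} (h0 : ρ.range.relIndex (SOg a) ≠ 0)
    (hC : ρ.range.relIndex (SOg a) ≤ C) {Δ : Subgroup Γ} (hi0 : Δ.index ≠ 0)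
    {W : Submodule L (Fin m → L)}
    (hW : ∀ γ ∈ Δ, ∀ x ∈ W, (cm (ρ γ : Matrix (Fin m) (Fin m) ℤ_[p])).map σ *ᵥ x ∈ W) :
    W = ⊥ ∨ W = ⊤ := by
  have has : (cm a).IsSymm := by
    rw [Matrix.IsSymm, ← cm_transpose, ha.eq]
  have had : (cm a).det ≠ 0 := by
    have h1 : (cm a).det = ((a.det : ℤ_[p]) : ℚ_[p]) :=
      (RingHom.map_det (PadicInt.Coe.ringHom (p := p)) a).symm
    rw [h1]
    exact fun h => hd (PadicInt.ext h)
  refine std_map σ has had two_ne_zero hm fun Y hY => ?_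
  change Y ∈ stF σ W
  refine mem_of_congr fun e => ?_
  obtain ⟨k1, h1⟩ := tan_of_pow (q := 2 * C.factorial * Δ.index.factorial)
    (Nat.mul_pos (Nat.mul_pos (by norm_num) (Nat.factorial_pos _)) (Nat.factorial_pos _))
    (G := {x | ∃ γ ∈ Δ, (ρ γ : Matrix (Fin m) (Fin m) ℤ_[p]) = x}) (by
      intro g hg
      obtain ⟨γ, hγ⟩ := pow_of_idx hd h0 hC hg
      refine ⟨γ ^ Δ.index.factorial, pow_fact_mem hi0 le_rfl γ, ?_⟩
      rw [map_pow, Units.val_pow_eq_pow_val, hγ, ← pow_mul]) hY e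
  obtain ⟨_, ⟨γ, hγ, rfl⟩, Z, hZ⟩ := h1 k1 le_rfl
  refine ⟨Z, ?_⟩
  have h2 : cm (ρ γ : Matrix (Fin m) (Fin m) ℤ_[p]) ∈ stF σ W := fun x hx => hW γ hγ x hx
  have h3 := (stF σ W).sub_mem h2 (one_mem_stF σ W)
  have h4 : cm (ρ γ : Matrix (Fin m) (Fin m) ℤ_[p]) - 1 =
      (p : ℚ_[p]) ^ k1 • (Y + (p : ℚ_[p]) ^ e • cm Z) := by
    rw [hZ, smul_add, smul_smul, ← pow_add]
    abel
  rw [h4] at h3
  have h5 := (stF σ W).smul_mem ((p : ℚ_[p]) ^ k1)⁻¹ h3
  rwa [smul_smul, inv_mul_cancel₀ (pow_ne_zero _ P_ne), one_smul] at h5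

/-- **Strong absolute irreducibility modulo `p`.** -/
theorem abs_mod (σ : ZMod p →+* L) {A : Matrix (Fin m) (Fin m) (ZMod p)} (hA : A.IsSymm)
    (hd : A.det ≠ 0)
    (hm : 3 ≤ m) (hp5 : 5 < p) {ρ : Γ →* Matrix (Fin m) (Fin m) (ZMod p)}
    (hE : ∀ e v, Eic (bil A) e v → ∃ γ, ρ γ = LinearMap.toMatrix' (Ee (bil A) e v))
    {Δ : Subgroup Γ} (hi0 : Δ.index ≠ 0) (hi : Δ.index < p)
    {W : Submodule L (Fin m → L)} (hW : ∀ γ ∈ Δ, ∀ x ∈ W, (ρ γ).map σ *ᵥ x ∈ W) :
    W = ⊥ ∨ W = ⊤ := by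
  have hodd : p % 2 = 1 := by
    rcases hp.out.eq_two_or_odd with h | h
    · omega
    · exact h
  have h2 := p_two hp5
  obtain ⟨v, hv, hb⟩ := exists_ob hA hd h2
  obtain ⟨e, he, hee⟩ := exists_isotropic hA hd h2 hm (by rw [ZMod.card]; exact hodd)
  have hEs := so_le_Es v hv hb (bil_symm hA) (p_24 hp5) (by rw [Fintype.card_fin]; omega) he hee
  refine std_map σ hA hd h2 hm fun Y hY => ?_
  change Y ∈ stF σ W
  rw [← toLin_mem_opS]
  refine (hEs.trans ?_) (toLin_mem_so.2 hY)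
  unfold Es
  rw [Submodule.span_le]
  rintro _ ⟨e, w, hew, rfl⟩
  obtain ⟨γ, hγ⟩ := hE e w hew
  obtain ⟨j, hj0, hjn, hj⟩ := Subgroup.exists_pow_mem_of_index_ne_zero hi0 γ
  have hjp : (j : ZMod p) ≠ 0 := by
    rw [Ne, ZMod.natCast_eq_zero_iff]
    intro h
    have := Nat.le_of_dvd hj0 h
    omega
  have hpow : ∀ k : ℕ, ρ (γ ^ k) = LinearMap.toMatrix' (Ee (bil A) ((k : ZMod p) • e) w) := by
    intro k
    rw [map_pow, hγ, Ee_nat (bil_symm hA) h2 hew]
    induction k with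
    | zero => rw [pow_zero, pow_zero, LinearMap.toMatrix'_one]
    | succ k ih => rw [pow_succ, pow_succ, LinearMap.toMatrix'_mul, ih]
  have hmem : ∀ k : ℕ, Ee (bil A) (((j * k : ℕ) : ZMod p) • e) w ∈ opS (stF σ W) := by
    intro k
    rw [mem_opS, ← hpow, pow_mul]
    intro x hx
    exact hW _ (Δ.pow_mem hj k) x hx
  have hone : (1 : End (ZMod p) (Fin m → ZMod p)) ∈ opS (stF σ W) := by
    rw [mem_opS, LinearMap.toMatrix'_one]
    exact one_mem_stF σ W
  have e1 := (opS (stF σ W)).sub_mem (hmem 1) hone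
  have e2 := (opS (stF σ W)).sub_mem (hmem 2) hone
  have e3 := (opS (stF σ W)).sub_mem ((opS (stF σ W)).smul_mem (4 : ZMod p) e1) e2
  have h22 : (2⁻¹ : ZMod p) * 2 = 1 := inv_mul_cancel₀ h2
  have e4 : (4 : ZMod p) • (Ee (bil A) (((j * 1 : ℕ) : ZMod p) • e) w - 1) -
      (Ee (bil A) (((j * 2 : ℕ) : ZMod p) • e) w - 1) = (2 * (j : ZMod p)) • wl (bil A) e w := by
    unfold Ee
    simp only [map_smul, LinearMap.smul_apply, smul_mul_assoc, mul_smul_comm, smul_smul]
    push_cast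
    have e5 : (4 : ZMod p) * (2⁻¹ * (j * 1 * (j * 1))) = 2⁻¹ * (j * 2 * (j * 2)) := by ring
    simp only [smul_sub, smul_add, smul_smul]
    rw [e5]
    module
  rw [e4] at e3
  have e6 := (opS (stF σ W)).smul_mem (2 * (j : ZMod p))⁻¹ e3
  rw [smul_smul, inv_mul_cancel₀ (mul_ne_zero h2 hjp), one_smul] at e6
  exact e6

end big

end Pool.Agent.H853.Root
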