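import Pool.Graph.R_pool_sql_team_seeded_1acbe0a2.Y127.I.Gen3

/-!
# Systems of equations without solutions in characteristic zero
-/

set_option linter.unusedSectionVars false

namespace Pool.Agent.H853.Elim

open Module Polynomial Pool.Agent.Y127.I

/-- A system of equations with integral coefficients and without solutions in the fields of
characteristic zero has no solutions in the fields of almost all characteristics. -/
theorem exists_N {k : ℕ} (S : Set (MvPolynomial (Fin k) ℤ))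
    (h : ∀ (K : Type) [Field K] [CharZero K] (x : Fin k → K),
      ¬ ∀ s ∈ S, MvPolynomial.eval₂ (Int.castRingHom K) x s = 0) :
    ∃ N : ℕ, N ≠ 0 ∧ ∀ (L : Type) [Field L], (N : L) ≠ 0 → ∀ x : Fin k → L,
      ¬ ∀ s ∈ S, MvPolynomial.eval₂ (Int.castRingHom L) x s = 0 := by
  set I : Ideal (MvPolynomial (Fin k) ℤ) := Ideal.span S with hI
  by_cases hN : ∃ N : ℕ, N ≠ 0 ∧ ((N : MvPolynomial (Fin k) ℤ)) ∈ I
  · obtain ⟨N, hN0, hNI⟩ := hN
    refine ⟨N, hN0, fun L _ hNL x hx => hNL ?_⟩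
    have hker : I ≤ RingHom.ker (MvPolynomial.eval₂Hom (Int.castRingHom L) x) := by
      rw [hI, Ideal.span_le]
      exact fun s hs => hx s hs
    have h1 : (MvPolynomial.eval₂Hom (Int.castRingHom L) x) (N : MvPolynomial (Fin k) ℤ) = 0 :=
      hker hNI
    rwa [map_natCast] at h1
  · exfalso
    push Not at hN
    set T : Submonoid (MvPolynomial (Fin k) ℤ) :=
      (nonZeroDivisors ℤ).map (Int.castRingHom (MvPolynomial (Fin k) ℤ)) with hT
    have hdisj : Disjoint (I : Set (MvPolynomial (Fin k) ℤ)) T := by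
      rw [Set.disjoint_left]
      rintro _ hyI ⟨z, hz, rfl⟩
      have hz0 : z ≠ 0 := nonZeroDivisors.ne_zero hz
      refine hN z.natAbs (Int.natAbs_ne_zero.2 hz0) ?_
      have h1 : (z : MvPolynomial (Fin k) ℤ) ∈ I := hyI
      rcases Int.natAbs_eq z with h2 | h2
      · have h3 : ((z.natAbs : ℕ) : MvPolynomial (Fin k) ℤ) = (z : MvPolynomial (Fin k) ℤ) := by
          conv_rhs => rw [h2]
          rw [Int.cast_natCast]
        rw [h3]
        exact h1
      · have h3 : ((z.natAbs : ℕ) : MvPolynomial (Fin k) ℤ) = -(z : MvPolynomial (Fin k) ℤ) := by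
          conv_rhs => rw [h2]
          rw [Int.cast_neg, Int.cast_natCast, neg_neg]
        rw [h3]
        exact I.neg_mem h1
    obtain ⟨q, hq, hIq, hqS⟩ := Ideal.exists_le_prime_disjoint I T hdisj
    have := hq
    let π : MvPolynomial (Fin k) ℤ →+* FractionRing (MvPolynomial (Fin k) ℤ ⧸ q) :=
      (algebraMap (MvPolynomial (Fin k) ℤ ⧸ q) _).comp (Ideal.Quotient.mk q)
    have hπ : ∀ y, π y = 0 → y ∈ q := by
      intro y hy
      have h1 := (map_eq_zero_iff _ (IsFractionRing.injective (MvPolynomial (Fin k) ℤ ⧸ q)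
        (FractionRing (MvPolynomial (Fin k) ℤ ⧸ q)))).1 hy
      exact Ideal.Quotient.eq_zero_iff_mem.1 h1
    have : CharZero (FractionRing (MvPolynomial (Fin k) ℤ ⧸ q)) := by
      refine charZero_of_inj_zero fun n hn => ?_
      by_contra hn0
      have h1 : π ((n : ℤ) : MvPolynomial (Fin k) ℤ) = 0 := by
        rw [map_intCast, Int.cast_natCast, hn]
      refine Set.disjoint_left.1 hqS (hπ _ h1) ⟨(n : ℤ), ?_, rfl⟩
      rw [SetLike.mem_coe, mem_nonZeroDivisors_iff_ne_zero]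
      exact_mod_cast hn0
    have hkill : ∀ y ∈ I, π y = 0 := by
      intro y hy
      change algebraMap (MvPolynomial (Fin k) ℤ ⧸ q) (FractionRing (MvPolynomial (Fin k) ℤ ⧸ q))
        (Ideal.Quotient.mk q y) = 0
      rw [Ideal.Quotient.eq_zero_iff_mem.2 (hIq hy), map_zero]
    have hπe : π = MvPolynomial.eval₂Hom (Int.castRingHom _) fun i => π (MvPolynomial.X i) := by
      refine MvPolynomial.ringHom_ext (fun z => ?_) fun i => ?_
      · rw [MvPolynomial.eval₂Hom_C]
        exact congrArg (fun f : ℤ →+* _ => f z)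
          (RingHom.ext_int (π.comp MvPolynomial.C) (Int.castRingHom _))
      · rw [MvPolynomial.eval₂Hom_X']
    refine h (FractionRing (MvPolynomial (Fin k) ℤ ⧸ q)) (fun i => π (MvPolynomial.X i))
      fun s hs => ?_
    have h1 := hkill s (Ideal.subset_span hs)
    rw [hπe] at h1
    exact h1

/-- The conditions on the roots of a polynomial with integral coefficients, in a field. -/
structure GoodZ (R : ℤ[X]) (K : Type) [Field K] : Prop where
  sep : ∀ a : K, ev R a = 0 → ev R.derivative a ≠ 0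
  neg : ev R (-1 : K) ≠ 0
  rel : ∀ a b c d : K, ev R a = 0 → ev R b = 0 → ev R c = 0 → ev R d = 0 → a ≠ b → c ≠ d →
    a * b = c * d → a * b = 1 ∨ a = c ∨ a = d

theorem exists_emb' {k K L : Type} [Field k] [Field K] [Field L] [Algebra k K] [Algebra k L]
    [IsAlgClosed L] : ∃ (E : Subfield K) (_ : E →+* L), ∀ x : K, IsAlgebraic k x → x ∈ E := by
  let φ : algebraicClosure k K →ₐ[k] L := IsAlgClosed.lift
  exact ⟨(algebraicClosure k K).toSubfield, φ.toRingHom, fun x hx => mem_algebraicClosure_iff.2 hx⟩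

theorem goodZ_zero {R : ℤ[X]} (h0 : R ≠ 0) (h : GoodZ R ℂ) (K : Type) [Field K] [CharZero K] :
    GoodZ R K := by
  obtain ⟨E, φ, hE⟩ := exists_emb' (k := ℚ) (K := K) (L := ℂ)
  have halg : ∀ y : K, ev R y = 0 → y ∈ E := by
    intro y hy
    refine hE y ⟨R.map (Int.castRingHom ℚ), ?_, ?_⟩
    · rwa [Ne, Polynomial.map_eq_zero_iff (Int.castRingHom ℚ).injective_int]
    · rw [aeval_ev, hy]
  have hφ : ∀ (Q : ℤ[X]) (y : K) (hy : y ∈ E), ev Q y = 0 → ev Q (φ ⟨y, hy⟩) = 0 := by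
    intro Q y hy h1
    have h2 : ev Q (⟨y, hy⟩ : E) = 0 := by
      have h3 := ev_map E.subtype Q ⟨y, hy⟩
      have h4 : E.subtype ⟨y, hy⟩ = y := rfl
      rw [h4, h1] at h3
      exact Subtype.ext h3
    have h3 := ev_map φ Q ⟨y, hy⟩
    rw [h2, map_zero] at h3
    exact h3.symm
  have hinj : Function.Injective φ := φ.injective
  have hEK : ∀ (x y : K) (hx : x ∈ E) (hy : y ∈ E),
      φ ⟨x, hx⟩ = φ ⟨y, hy⟩ → x = y := fun x y hx hy hxy => congrArg Subtype.val (hinj hxy)
  refine ⟨fun a ha hda => ?_, fun h1 => ?_, fun a b c d ha hb hc hd hab hcd habcd => ?_⟩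
  · exact h.sep _ (hφ R a (halg a ha) ha) (hφ _ a (halg a ha) hda)
  · have h4 := hφ R (-1) (halg _ h1) h1
    have h5 : φ ⟨-1, halg _ h1⟩ = -1 := by
      have h6 : (⟨-1, halg _ h1⟩ : E) = -1 := rfl
      rw [h6, map_neg, map_one]
    rw [h5] at h4
    exact h.neg h4
  · rcases h.rel _ _ _ _ (hφ R a (halg a ha) ha) (hφ R b (halg b hb) hb) (hφ R c (halg c hc) hc)
      (hφ R d (halg d hd) hd) (fun h1 => hab (hEK _ _ _ _ h1)) (fun h1 => hcd (hEK _ _ _ _ h1))
      (by
        rw [← map_mul, ← map_mul]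
        congr 1
        exact Subtype.ext habcd) with h1 | h1 | h1
    · left
      rw [← map_mul, ← map_one φ] at h1
      exact congrArg Subtype.val (hinj h1)
    · exact Or.inr (Or.inl (hEK _ _ _ _ h1))
    · exact Or.inr (Or.inr (hEK _ _ _ _ h1))

theorem eval₂_ev {k : ℕ} {L : Type} [CommRing L] (R : ℤ[X]) (x : Fin k → L)
    (y : MvPolynomial (Fin k) ℤ) : MvPolynomial.eval₂ (Int.castRingHom L) x (ev R y) =
      ev R (MvPolynomial.eval₂ (Int.castRingHom L) x y) :=
  ev_map (MvPolynomial.eval₂Hom (Int.castRingHom L) x) R y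

theorem goodZ_fin {R : ℤ[X]} (h0 : R ≠ 0) (h : GoodZ R ℂ) : ∃ N : ℕ, N ≠ 0 ∧
    ∀ (L : Type) [Field L], (N : L) ≠ 0 → GoodZ R L := by
  have hz := fun (K : Type) [Field K] [CharZero K] => goodZ_zero h0 h K
  -- simple roots
  obtain ⟨N1, hN1, h1⟩ := exists_N (k := 1) {ev R (MvPolynomial.X 0),
      ev R.derivative (MvPolynomial.X 0)} (fun K _ _ x hx => by
    have e1 := hx _ (Set.mem_insert _ _)
    have e2 := hx _ (Set.mem_insert_of_mem _ (Set.mem_singleton _))
    rw [eval₂_ev, MvPolynomial.eval₂_X] at e1 e2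
    exact (hz K).sep _ e1 e2)
  -- the number `-1`
  obtain ⟨N2, hN2, h2⟩ := exists_N (k := 0) {ev R (-1)} (fun K _ _ x hx => by
    have e1 := hx _ (Set.mem_singleton _)
    rw [eval₂_ev] at e1
    have e2 : MvPolynomial.eval₂ (Int.castRingHom K) x (-1) = -1 := by
      have e3 := map_neg (MvPolynomial.eval₂Hom (Int.castRingHom K) x) 1
      rw [map_one] at e3
      exact e3
    rw [e2] at e1
    exact (hz K).neg e1)
  -- the relations
  set X0 : MvPolynomial (Fin 5) ℤ := MvPolynomial.X 0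
  set X1 : MvPolynomial (Fin 5) ℤ := MvPolynomial.X 1
  set X2 : MvPolynomial (Fin 5) ℤ := MvPolynomial.X 2
  set X3 : MvPolynomial (Fin 5) ℤ := MvPolynomial.X 3
  set X4 : MvPolynomial (Fin 5) ℤ := MvPolynomial.X 4
  have hev : ∀ (K : Type) [Field K] (x : Fin 5 → K),
      MvPolynomial.eval₂ (Int.castRingHom K) x (X0 * X1 - X2 * X3) = x 0 * x 1 - x 2 * x 3 ∧
      MvPolynomial.eval₂ (Int.castRingHom K) x
        (X4 * ((X0 - X1) * (X2 - X3) * (X0 * X1 - 1) * (X0 - X2) * (X0 - X3)) - 1) =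
        x 4 * ((x 0 - x 1) * (x 2 - x 3) * (x 0 * x 1 - 1) * (x 0 - x 2) * (x 0 - x 3)) - 1 := by
    intro K _ x
    constructor
    · change MvPolynomial.eval₂Hom (Int.castRingHom K) x _ = _
      simp only [map_sub, map_mul, X0, X1, X2, X3, MvPolynomial.eval₂Hom_X']
    · change MvPolynomial.eval₂Hom (Int.castRingHom K) x _ = _
      simp only [map_sub, map_mul, map_one, X0, X1, X2, X3, X4, MvPolynomial.eval₂Hom_X']
  obtain ⟨N3, hN3, h3⟩ := exists_N (k := 5) {ev R X0, ev R X1, ev R X2, ev R X3,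
      X0 * X1 - X2 * X3,
      X4 * ((X0 - X1) * (X2 - X3) * (X0 * X1 - 1) * (X0 - X2) * (X0 - X3)) - 1}
      (fun K _ _ x hx => by
    have e0 := hx (ev R X0) (by simp)
    have e1 := hx (ev R X1) (by simp)
    have e2 := hx (ev R X2) (by simp)
    have e3 := hx (ev R X3) (by simp)
    have e4 := hx (X0 * X1 - X2 * X3) (by simp)
    have e5 := hx (X4 * ((X0 - X1) * (X2 - X3) * (X0 * X1 - 1) * (X0 - X2) * (X0 - X3)) - 1)
      (by simp)
    rw [eval₂_ev, MvPolynomial.eval₂_X] at e0 e1 e2 e3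
    rw [(hev K x).1] at e4
    rw [(hev K x).2] at e5
    have e6 : x 4 * ((x 0 - x 1) * (x 2 - x 3) * (x 0 * x 1 - 1) * (x 0 - x 2) * (x 0 - x 3)) ≠ 0 := by
      intro e7
      rw [e7] at e5
      exact one_ne_zero (neg_eq_zero.1 (by rw [← e5]; ring))
    have e8 := right_ne_zero_of_mul e6
    have e9 := right_ne_zero_of_mul e8
    have e10 := left_ne_zero_of_mul e8
    have e11 := right_ne_zero_of_mul e10
    have e12 := left_ne_zero_of_mul e10
    have e13 := right_ne_zero_of_mul e12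
    have e14 := left_ne_zero_of_mul e12
    have e15 := right_ne_zero_of_mul e14
    have e16 := left_ne_zero_of_mul e14
    rcases (hz K).rel (x 0) (x 1) (x 2) (x 3) e0 e1 e2 e3 (sub_ne_zero.1 e16) (sub_ne_zero.1 e15)
      (sub_eq_zero.1 e4) with h4 | h4 | h4
    · exact e13 (sub_eq_zero.2 h4)
    · exact e11 (sub_eq_zero.2 h4)
    · exact e9 (sub_eq_zero.2 h4))
  refine ⟨N1 * N2 * N3, mul_ne_zero (mul_ne_zero hN1 hN2) hN3, fun L _ hN => ?_⟩
  rw [Nat.cast_mul, Nat.cast_mul] at hN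
  have hL1 := left_ne_zero_of_mul (left_ne_zero_of_mul hN)
  have hL2 := right_ne_zero_of_mul (left_ne_zero_of_mul hN)
  have hL3 := right_ne_zero_of_mul hN
  refine ⟨fun a ha hda => ?_, fun h4 => ?_, fun a b c d ha hb hc hd hab hcd habcd => ?_⟩
  · refine h1 L hL1 (fun _ => a) ?_
    rintro s (rfl | rfl)
    · rw [eval₂_ev, MvPolynomial.eval₂_X]; exact ha
    · rw [eval₂_ev, MvPolynomial.eval₂_X]; exact hda
  · refine h2 L hL2 (fun _ => 0) ?_
    rintro s rfl
    rw [eval₂_ev]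
    have e2 : MvPolynomial.eval₂ (Int.castRingHom L) (fun _ : Fin 0 => (0 : L)) (-1) = -1 := by
      have e3 := map_neg (MvPolynomial.eval₂Hom (Int.castRingHom L) fun _ : Fin 0 => (0 : L)) 1
      rw [map_one] at e3
      exact e3
    rw [e2]
    exact h4
  · by_contra hcon
    push Not at hcon
    obtain ⟨c1, c2, c3⟩ := hcon
    set D := (a - b) * (c - d) * (a * b - 1) * (a - c) * (a - d) with hD
    have hD0 : D ≠ 0 := mul_ne_zero (mul_ne_zero (mul_ne_zero (mul_ne_zero (sub_ne_zero.2 hab)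
      (sub_ne_zero.2 hcd)) (sub_ne_zero.2 c1)) (sub_ne_zero.2 c2)) (sub_ne_zero.2 c3)
    refine h3 L hL3 ![a, b, c, d, D⁻¹] ?_
    rintro s (rfl | rfl | rfl | rfl | rfl | rfl)
    · rw [eval₂_ev, MvPolynomial.eval₂_X]; exact ha
    · rw [eval₂_ev, MvPolynomial.eval₂_X]; exact hb
    · rw [eval₂_ev, MvPolynomial.eval₂_X]; exact hc
    · rw [eval₂_ev, MvPolynomial.eval₂_X]; exact hd
    · rw [(hev L _).1]
      change a * b - c * d = 0
      rw [habcd, sub_self]
    · rw [(hev L _).2]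
      change D⁻¹ * D - 1 = 0
      rw [inv_mul_cancel₀ hD0, sub_self]

end Pool.Agent.H853.Elim
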