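import Mathlib

set_option autoImplicit false

namespace Pool.Agent.H853.OrdP

open MulAction

/-- A `p`-group which acts on at most `p ^ 2` points without fixed points has an element without
fixed points. -/
theorem exists_free_pgroup {P Ω : Type*} [Group P] [Finite P] [MulAction P Ω] [Finite Ω] {p : ℕ}
    [Fact p.Prime] (hP : IsPGroup p P) (hfix : ∀ x : Ω, ∃ g : P, g • x ≠ x)
    (hcard : Nat.card Ω ≤ p ^ 2) : ∃ g : P, ∀ x : Ω, g • x ≠ x := by
  classical
  have := Fintype.ofFinite P
  have := Fintype.ofFinite Ω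
  have hp : p.Prime := Fact.out
  by_cases hne : Nonempty Ω
  swap
  · exact ⟨1, fun x => absurd ⟨x⟩ hne⟩
  by_contra hcon
  push Not at hcon
  -- all orbits have size divisible by `p`
  have horb : ∀ x : Ω, p ∣ Nat.card (orbit P x) := by
    intro x
    obtain ⟨n, hn⟩ := hP.card_orbit x
    rw [hn]
    rcases Nat.eq_zero_or_pos n with h | h
    · exfalso
      rw [h, pow_zero] at hn
      obtain ⟨g, hg⟩ := hfix x
      apply hg
      have h1 : Subsingleton (orbit P x) := (Nat.card_eq_one_iff_unique.mp hn).1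
      have h2 := h1.elim ⟨g • x, mem_orbit x g⟩ ⟨x, mem_orbit_self x⟩
      exact congrArg Subtype.val h2
    · exact dvd_pow_self p h.ne'
  -- the number of orbits
  have hN : p * Fintype.card (orbitRel.Quotient P Ω) ≤ Fintype.card Ω := by
    have e := Fintype.card_congr (selfEquivSigmaOrbits P Ω)
    rw [e, Fintype.card_sigma, mul_comm]
    calc Fintype.card (orbitRel.Quotient P Ω) * p = ∑ _ω : orbitRel.Quotient P Ω, p := by
          rw [Finset.sum_const, Finset.card_univ, smul_eq_mul]
      _ ≤ _ := by
          refine Finset.sum_le_sum fun ω _ => ?_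
          rw [← Nat.card_eq_fintype_card]
          apply Nat.le_of_dvd
          · have : Nonempty (orbit P ω.out) := ⟨⟨ω.out, mem_orbit_self _⟩⟩
            exact Nat.card_pos
          · exact horb _
  -- each element has at least `p` fixed points
  have hmod : p ∣ Fintype.card Ω := by
    rw [Fintype.card_congr (selfEquivSigmaOrbits P Ω), Fintype.card_sigma]
    apply Finset.dvd_sum
    intro ω _
    rw [← Nat.card_eq_fintype_card]
    exact horb _
  have hg : ∀ g : P, p ≤ Fintype.card (fixedBy Ω g) := by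
    intro g
    have hz : IsPGroup p (Subgroup.zpowers g) := hP.to_subgroup _
    have h1 := hz.card_modEq_card_fixedPoints Ω
    have e : fixedPoints (Subgroup.zpowers g) Ω = fixedBy Ω g := by
      ext x
      constructor
      · intro h
        exact h ⟨g, Subgroup.mem_zpowers g⟩
      · rintro h ⟨_, n, rfl⟩
        exact (stabilizer P x).zpow_mem h n
    rw [e, Nat.card_eq_fintype_card, Nat.card_eq_fintype_card] at h1
    have h2 : p ∣ Fintype.card (fixedBy Ω g) := (Nat.modEq_zero_iff_dvd.mp
      (h1.symm.trans (Nat.modEq_zero_iff_dvd.mpr hmod)))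
    obtain ⟨x, hx⟩ := hcon g
    exact Nat.le_of_dvd (Fintype.card_pos_iff.mpr ⟨⟨x, hx⟩⟩) h2
  have hburn := sum_card_fixedBy_eq_card_orbits_mul_card_group P Ω
  have h1 : Fintype.card (fixedBy Ω (1 : P)) = Fintype.card Ω := by
    rw [← Nat.card_eq_fintype_card, ← Nat.card_eq_fintype_card, fixedBy_one_eq_univ]
    exact Nat.card_univ
  have h2 : Fintype.card Ω + (Fintype.card P - 1) * p ≤ ∑ g : P, Fintype.card (fixedBy Ω g) := by
    rw [← Finset.add_sum_erase Finset.univ _ (Finset.mem_univ (1 : P)), h1]
    gcongr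
    calc (Fintype.card P - 1) * p = ∑ _g ∈ Finset.univ.erase (1 : P), p := by
          rw [Finset.sum_const, Finset.card_erase_of_mem (Finset.mem_univ _), Finset.card_univ,
            smul_eq_mul]
      _ ≤ _ := Finset.sum_le_sum fun g _ => hg g
  rw [hburn] at h2
  have hcard' : Fintype.card Ω ≤ p ^ 2 := by rwa [Nat.card_eq_fintype_card] at hcard
  have hPpos : 0 < Fintype.card P := Fintype.card_pos
  have hΩ : 0 < Fintype.card Ω := Fintype.card_pos
  obtain ⟨c, hc⟩ : ∃ c, Fintype.card P = c + 1 := ⟨Fintype.card P - 1, by omega⟩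
  rw [hc, Nat.add_sub_cancel] at h2
  set N := Fintype.card (orbitRel.Quotient P Ω)
  have hN1 : 1 ≤ N := by
    rcases Nat.eq_zero_or_pos N with h | h
    · rw [h] at h2
      nlinarith
    · exact h
  have hNp : N ≤ p := by
    have : p * N ≤ p * p := by nlinarith
    exact Nat.le_of_mul_le_mul_left this hp.pos
  have hp2 := hp.two_le
  -- `Ω + c p ≤ N (c + 1)`, `p N ≤ Ω`, `N ≤ p`
  have h3 : N * c ≤ p * c := Nat.mul_le_mul_right c hNp
  have h4 : N * (c + 1) = N * c + N := by ring
  have h5 : 2 * N ≤ p * N := Nat.mul_le_mul_right N hp2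
  have h6 : c * p = p * c := mul_comm _ _
  omega

/-- A finite group which acts on at most `p ^ 2` points, with all orbits of length divisible by `p`,
has an element of `p`-power order without fixed points. -/
theorem exists_free {G Ω : Type*} [Group G] [Finite G] [MulAction G Ω] [Finite Ω] {p : ℕ}
    [Fact p.Prime] (horb : ∀ x : Ω, p ∣ Nat.card (orbit G x)) (hcard : Nat.card Ω ≤ p ^ 2) :
    ∃ g : G, (∃ m : ℕ, g ^ p ^ m = 1) ∧ ∀ x : Ω, g • x ≠ x := by
  classical
  have := Fintype.ofFinite G
  have := Fintype.ofFinite Ω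
  obtain ⟨P⟩ : Nonempty (Sylow p G) := inferInstance
  have hP : IsPGroup p (P : Subgroup G) := P.isPGroup'
  have hfix : ∀ x : Ω, ∃ g : (P : Subgroup G), g • x ≠ x := by
    intro x
    by_contra hcon
    push Not at hcon
    have hle : (P : Subgroup G) ≤ stabilizer G x := fun g hg => hcon ⟨g, hg⟩
    have h1 : (stabilizer G x).index ∣ (P : Subgroup G).index := Subgroup.index_dvd_of_le hle
    rw [index_stabilizer] at h1
    have h2 : Set.ncard (orbit G x) = Nat.card (orbit G x) := rfl
    rw [h2] at h1
    exact P.not_dvd_index ((horb x).trans h1)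
  obtain ⟨g, hg⟩ := exists_free_pgroup hP hfix hcard
  obtain ⟨m, hm⟩ := hP g
  refine ⟨g, ⟨m, ?_⟩, hg⟩
  have := congrArg Subtype.val hm
  simpa using this

end Pool.Agent.H853.OrdP
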