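import Pool.Agent.H853.OrdGrp
import Pool.Graph.R_seed8.W528.Ord.MotDown

/-!
Elements of the Galois group of a number field with long orbits on embeddings of given number fields,
and the orbit condition for ordinary primes.
-/

set_option autoImplicit false

namespace Pool.Agent.H853.OrdP

open NumberField IsDedekindDomain Polynomial
open Pool.Agent.W401.Cheb Pool.Agent.W528.Ord
open MultSystem (mv mv_mul mv_one mv_inj mv_comp)

variable {K : Type} [Field K] [NumberField K]

omit [NumberField K] in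
theorem mv_res {E₀ E : Type} [Field E₀] [Field E] (γ : GK K) (σ : E →+* AlgebraicClosure K)
    (e : E₀ →+* E) : mv γ (σ.comp e) = (mv γ σ).comp e := rfl

section Family

/-- `S` is a set of embeddings of `E` which is stable under the absolute Galois group of `K` -/
def Stable {E : Type} [Field E] (S : Set (E →+* AlgebraicClosure K)) : Prop :=
  ∀ (γ : GK K), ∀ σ ∈ S, mv γ σ ∈ S

/-- The orbit of `σ` under the elements of the Galois group which fix the embeddings of the fields `E j`
in `S j` for all `j` with `p j ≠ q`. -/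
def orbitAt {J : Type} (E : J → Type) [∀ j, Field (E j)]
    (S : ∀ j, Set (E j →+* AlgebraicClosure K)) (p : J → ℕ) (q : ℕ) {E' : Type} [Field E']
    (σ : E' →+* AlgebraicClosure K) : Set (E' →+* AlgebraicClosure K) :=
  {τ | ∃ γ : GK K, (∀ j, p j ≠ q → ∀ τ' ∈ S j, mv γ τ' = τ') ∧ mv γ σ = τ}

variable {J : Type} (E : J → Type) [∀ j, Field (E j)] (S : ∀ j, Set (E j →+* AlgebraicClosure K))
  (p : J → ℕ) (q : ℕ)

/-- the elements which fix the embeddings with other primes -/
def Nq : Subgroup (GK K) where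
  carrier := {γ | ∀ j, p j ≠ q → ∀ τ' ∈ S j, mv γ τ' = τ'}
  mul_mem' := by
    intro a b ha hb j hj τ hτ
    rw [mv_mul, hb j hj τ hτ, ha j hj τ hτ]
  one_mem' := fun j _ τ _ => mv_one τ
  inv_mem' := by
    intro a ha j hj τ hτ
    apply mv_inj a
    rw [← mv_mul, mul_inv_cancel, mv_one, ha j hj τ hτ]

/-- the embeddings with the prime `q` -/
abbrev Om : Type := Σ j : {j : J // p j = q}, (S j.1)

variable (hS : ∀ j, Stable (S j))

/-- the action on the embeddings with the prime `q` -/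
noncomputable def act : Nq E S p q →* Equiv.Perm (Om E S p q) where
  toFun γ :=
    { toFun := fun x => ⟨x.1, ⟨mv (γ : GK K) x.2.1, hS _ _ _ x.2.2⟩⟩
      invFun := fun x => ⟨x.1, ⟨mv (γ : GK K)⁻¹ x.2.1, hS _ _ _ x.2.2⟩⟩
      left_inv := fun x => by
        obtain ⟨j, σ, hσ⟩ := x
        simp only [← mv_mul, inv_mul_cancel, mv_one]
      right_inv := fun x => by
        obtain ⟨j, σ, hσ⟩ := x
        simp only [← mv_mul, mul_inv_cancel, mv_one] }
  map_one' := by
    apply Equiv.ext
    rintro ⟨j, σ, hσ⟩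
    simp only [Equiv.coe_fn_mk, Equiv.Perm.one_apply, Subgroup.coe_one, mv_one]
  map_mul' a b := by
    apply Equiv.ext
    rintro ⟨j, σ, hσ⟩
    simp only [Equiv.coe_fn_mk, Equiv.Perm.mul_apply, Subgroup.coe_mul, mv_mul]

include hS in
/-- an element with long orbits for one prime -/
theorem exists_long_one [Fintype J] [∀ j, NumberField (E j)] [Fact q.Prime]
    (hsum : ∑ j : {j // p j = q}, (S j.1).ncard ≤ q ^ 2)
    (horb : ∀ j, p j = q → ∀ σ ∈ S j, q ∣ (orbitAt E S p q σ).ncard) :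
    ∃ γ ∈ Nq E S p q, ∀ j, p j = q → ∀ σ ∈ S j, ∀ a b : ℕ, a < q → b < q →
      mv (γ ^ a) σ = mv (γ ^ b) σ → a = b := by
  classical
  have hq : q.Prime := Fact.out
  have : ∀ j, Fintype (S j) := fun j => Fintype.ofFinite _
  have hcard : Nat.card (Om E S p q) ≤ q ^ 2 := by
    rw [Nat.card_eq_fintype_card, Fintype.card_sigma]
    refine le_trans (le_of_eq ?_) hsum
    apply Finset.sum_congr rfl
    intro j _
    rw [← Nat.card_eq_fintype_card]
    rfl
  have horb' : ∀ x : Om E S p q,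
      q ∣ Nat.card (MulAction.orbit (act E S p q hS).range x) := by
    rintro ⟨⟨j, hj⟩, σ, hσ⟩
    have h1 := horb j hj σ hσ
    have hmem : ∀ τ ∈ orbitAt E S p q σ, τ ∈ S j := by
      rintro _ ⟨γ, -, rfl⟩
      exact hS j γ σ hσ
    let s : (orbitAt E S p q σ) → Om E S p q := fun τ => ⟨⟨j, hj⟩, ⟨τ.1, hmem _ τ.2⟩⟩
    have hs : Function.Injective s := by
      intro τ τ' h
      have h2 := eq_of_heq (Sigma.mk.inj h).2
      have h5 : τ.1 = τ'.1 := congrArg (fun z : S j => (z : E j →+* AlgebraicClosure K)) h2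
      exact Subtype.ext h5
    let x₀ : Om E S p q := ⟨⟨j, hj⟩, σ, hσ⟩
    change q ∣ Nat.card (MulAction.orbit (act E S p q hS).range x₀)
    have h2 : MulAction.orbit (act E S p q hS).range x₀ = Set.range s := by
      ext y
      constructor
      · rintro ⟨⟨_, γ, rfl⟩, rfl⟩
        exact ⟨⟨mv (γ : GK K) σ, γ, γ.2, rfl⟩, rfl⟩
      · rintro ⟨⟨_, γ, hγ, rfl⟩, rfl⟩
        exact ⟨⟨act E S p q hS ⟨γ, hγ⟩, _, rfl⟩, rfl⟩
    rw [h2]
    have h3 : Nat.card (Set.range s) = Nat.card (orbitAt E S p q σ) :=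
      (Nat.card_congr (Equiv.ofInjective s hs)).symm
    rw [h3]
    exact h1
  obtain ⟨⟨_, γ, rfl⟩, ⟨m, hm⟩, hfree⟩ := exists_free horb' hcard
  refine ⟨γ, γ.2, ?_⟩
  have hm' : (act E S p q hS γ) ^ q ^ m = 1 := congrArg Subtype.val hm
  -- the main point
  have key : ∀ (j : J) (hj : p j = q) (σ : E j →+* AlgebraicClosure K) (hσ : σ ∈ S j) (a : ℕ),
      0 < a → a < q → mv ((γ : GK K) ^ a) σ ≠ σ := by
    intro j hj σ hσ a ha hap hfix
    have h1 : Function.IsPeriodicPt (act E S p q hS γ) a ⟨⟨j, hj⟩, σ, hσ⟩ := by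
      unfold Function.IsPeriodicPt Function.IsFixedPt
      rw [← Equiv.Perm.coe_pow, ← map_pow]
      have e : act E S p q hS (γ ^ a) (⟨⟨j, hj⟩, σ, hσ⟩ : Om E S p q) =
          ⟨⟨j, hj⟩, ⟨mv ((γ : GK K) ^ a) σ, hS _ _ _ hσ⟩⟩ := rfl
      rw [e]
      congr 2
    have h2 : Function.IsPeriodicPt (act E S p q hS γ) (q ^ m) ⟨⟨j, hj⟩, σ, hσ⟩ := by
      unfold Function.IsPeriodicPt Function.IsFixedPt
      rw [← Equiv.Perm.coe_pow, hm']
      rfl
    have h3 : Nat.Coprime a (q ^ m) := by
      apply Nat.Coprime.pow_right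
      rw [Nat.coprime_comm]
      exact (Nat.Prime.coprime_iff_not_dvd hq).mpr (Nat.not_dvd_of_pos_of_lt ha hap)
    have h4 := h1.gcd h2
    rw [h3] at h4
    exact hfree _ h4
  intro j hj σ hσ a b ha hb h
  rcases Nat.lt_trichotomy a b with hlt | heq | hgt
  · exfalso
    obtain ⟨c, rfl⟩ := Nat.exists_eq_add_of_lt hlt
    apply key j hj σ hσ (c + 1) (by omega) (by omega)
    apply mv_inj ((γ : GK K) ^ a)
    rw [← mv_mul, ← pow_add, ← add_assoc, ← h]
  · exact heq
  · exfalso
    obtain ⟨c, rfl⟩ := Nat.exists_eq_add_of_lt hgt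
    apply key j hj σ hσ (c + 1) (by omega) (by omega)
    apply mv_inj ((γ : GK K) ^ b)
    rw [← mv_mul, ← pow_add, ← add_assoc, h]

include hS in
/-- an element with long orbits for all primes -/
theorem exists_long [Fintype J] [∀ j, NumberField (E j)] (hp : ∀ j, (p j).Prime)
    (hsum : ∀ q, ∑ j : {j // p j = q}, (S j.1).ncard ≤ q ^ 2)
    (horb : ∀ j, ∀ σ ∈ S j, p j ∣ (orbitAt E S p (p j) σ).ncard) :
    ∃ γ : GK K, ∀ j, ∀ σ ∈ S j, ∀ a b : ℕ, a < p j → b < p j →
      mv (γ ^ a) σ = mv (γ ^ b) σ → a = b := by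
  classical
  have key : ∀ Q : Finset ℕ, ∃ γ : GK K,
      (∀ j, p j ∈ Q → ∀ σ ∈ S j, ∀ a b : ℕ, a < p j → b < p j →
        mv (γ ^ a) σ = mv (γ ^ b) σ → a = b) ∧
      ∀ j, p j ∉ Q → ∀ σ ∈ S j, mv γ σ = σ := by
    intro Q
    induction Q using Finset.induction_on with
    | empty => exact ⟨1, fun j hj => absurd hj (Finset.notMem_empty _), fun j _ σ _ => mv_one σ⟩
    | insert q Q hq ih =>
      obtain ⟨γ, h1, h2⟩ := ih
      by_cases hex : ∃ j, p j = q
      · obtain ⟨j₀, hj₀⟩ := hex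
        have : Fact q.Prime := ⟨hj₀ ▸ hp j₀⟩
        obtain ⟨δ, hδ, h3⟩ := exists_long_one E S p q hS (hsum q)
          (fun j hj σ hσ => by
            have := horb j σ hσ
            rw [hj] at this
            exact this)
        have e1 : ∀ j, p j ≠ q → ∀ σ ∈ S j, ∀ a : ℕ, mv ((γ * δ) ^ a) σ = mv (γ ^ a) σ := by
          intro j hj σ hσ a
          induction a generalizing σ with
          | zero => rw [pow_zero, pow_zero]
          | succ a iha =>
            rw [pow_succ, pow_succ, mv_mul, mv_mul, mv_mul, hδ j hj σ hσ]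
            exact iha _ (hS j γ σ hσ)
        have e2 : ∀ j, p j = q → ∀ σ ∈ S j, ∀ a : ℕ, mv ((γ * δ) ^ a) σ = mv (δ ^ a) σ := by
          intro j hj σ hσ a
          induction a generalizing σ with
          | zero => rw [pow_zero, pow_zero]
          | succ a iha =>
            rw [pow_succ, pow_succ, mv_mul, mv_mul, mv_mul,
              h2 j (by rw [hj]; exact hq) _ (hS j δ σ hσ)]
            exact iha _ (hS j δ σ hσ)
        refine ⟨γ * δ, ?_, ?_⟩
        · intro j hj σ hσ a b ha hb h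
          by_cases hjq : p j = q
          · rw [e2 j hjq σ hσ, e2 j hjq σ hσ] at h
            exact h3 j hjq σ hσ a b (hjq ▸ ha) (hjq ▸ hb) h
          · rw [e1 j hjq σ hσ, e1 j hjq σ hσ] at h
            exact h1 j (Finset.mem_of_mem_insert_of_ne hj hjq) σ hσ a b ha hb h
        · intro j hj σ hσ
          rw [Finset.mem_insert, not_or] at hj
          have := e1 j hj.1 σ hσ 1
          rw [pow_one, pow_one] at this
          rw [this]
          exact h2 j hj.2 σ hσ
      · push Not at hex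
        refine ⟨γ, ?_, ?_⟩
        · intro j hj
          exact h1 j (Finset.mem_of_mem_insert_of_ne hj (hex j))
        · intro j hj
          exact h2 j (fun h => hj (Finset.mem_insert_of_mem h))
  obtain ⟨γ, h1, -⟩ := key (Finset.univ.image p)
  exact ⟨γ, fun j => h1 j (Finset.mem_image_of_mem p (Finset.mem_univ j))⟩

end Family

/-- The orbit of an embedding of `E`: its length is divisible by `p` if `p` divides `[E : ℚ]` and does
not divide `[K : ℚ]`. -/
theorem orbit_dvd {E : Type} [Field E] [NumberField E] {p : ℕ} (hp : p.Prime)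
    (hE : p ∣ Module.finrank ℚ E) (hK : ¬ p ∣ Module.finrank ℚ K)
    (σ : E →+* AlgebraicClosure K) : p ∣ (Set.range fun γ : GK K => mv γ σ).ncard := by
  classical
  let L : IntermediateField K (AlgebraicClosure K) := IntermediateField.adjoin K (Set.range σ)
  have hmem : ∀ x : E, σ x ∈ L := fun x => IntermediateField.subset_adjoin K _ ⟨x, rfl⟩
  -- the stabiliser
  have hst : ∀ γ : GK K, γ ∈ L.fixingSubgroup ↔ mv γ σ = σ := by
    intro γ
    rw [IntermediateField.mem_fixingSubgroup_iff]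
    constructor
    · intro h
      apply RingHom.ext
      intro x
      exact h _ (hmem x)
    · intro h
      have hle : L ≤ IntermediateField.fixedField (Subgroup.zpowers γ) := by
        rw [IntermediateField.adjoin_le_iff]
        rintro _ ⟨x, rfl⟩
        have hx : γ (σ x) = σ x := congrArg (fun f : E →+* AlgebraicClosure K => f x) h
        rintro ⟨_, n, rfl⟩
        exact (MulAction.stabilizer (GK K) (σ x)).zpow_mem hx n
      intro x hx
      exact hle hx ⟨γ, Subgroup.mem_zpowers γ⟩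
  -- the index of the stabiliser is the length of the orbit
  have hidx : (Set.range fun γ : GK K => mv γ σ).ncard = L.fixingSubgroup.index := by
    have hwell : ∀ a b : GK K, (QuotientGroup.leftRel L.fixingSubgroup) a b →
        (⟨mv a σ, ⟨a, rfl⟩⟩ : Set.range fun γ : GK K => mv γ σ) = ⟨mv b σ, ⟨b, rfl⟩⟩ := by
      intro a b hab
      have h1 : a⁻¹ * b ∈ L.fixingSubgroup := QuotientGroup.leftRel_apply.mp hab
      have h2 := (hst _).mp h1
      apply Subtype.ext
      change mv a σ = mv b σ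
      rw [← h2, ← mv_mul, mul_inv_cancel_left, h2]
    have hinj : Function.Injective (Quotient.lift (s := QuotientGroup.leftRel L.fixingSubgroup)
        (fun γ : GK K => (⟨mv γ σ, ⟨γ, rfl⟩⟩ : Set.range fun γ : GK K => mv γ σ)) hwell) := by
      intro a b
      refine Quotient.inductionOn₂ a b ?_
      intro a b hab
      apply Quotient.sound
      apply QuotientGroup.leftRel_apply.mpr
      rw [hst, mv_mul]
      have h1 : mv a σ = mv b σ := congrArg Subtype.val hab
      rw [← h1, ← mv_mul, inv_mul_cancel, mv_one]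
    have hsurj : Function.Surjective (Quotient.lift (s := QuotientGroup.leftRel L.fixingSubgroup)
        (fun γ : GK K => (⟨mv γ σ, ⟨γ, rfl⟩⟩ : Set.range fun γ : GK K => mv γ σ)) hwell) := by
      rintro ⟨_, γ, rfl⟩
      exact ⟨Quotient.mk _ γ, rfl⟩
    exact (Nat.card_congr (Equiv.ofBijective _ ⟨hinj, hsurj⟩)).symm
  rw [hidx, ← IntermediateField.finrank_eq_fixingSubgroup_index]
  -- degrees
  let f : E →+* L := σ.codRestrict L.toSubfield hmem
  let _ : Algebra E L := f.toAlgebra
  have : IsScalarTower ℚ E L := IsScalarTower.of_algebraMap_eq' (by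
    apply Subsingleton.elim)
  have : IsScalarTower ℚ K L := IsScalarTower.of_algebraMap_eq' (by
    apply Subsingleton.elim)
  have h1 := Module.finrank_mul_finrank ℚ E L
  have h2 := Module.finrank_mul_finrank ℚ K L
  have h3 : p ∣ Module.finrank ℚ K * Module.finrank K L := by
    rw [h2, ← h1]
    exact Dvd.dvd.mul_right hE _
  exact (hp.dvd_mul.mp h3).resolve_left hK

/-- the case of one prime -/
theorem horb_of_degree {J : Type} (E : J → Type) [∀ j, Field (E j)] [∀ j, NumberField (E j)]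
    (S : ∀ j, Set (E j →+* AlgebraicClosure K)) {p : ℕ} (hp : p.Prime)
    (hE : ∀ j, p ∣ Module.finrank ℚ (E j)) (hK : ¬ p ∣ Module.finrank ℚ K) (j : J)
    (σ : E j →+* AlgebraicClosure K) : p ∣ (orbitAt E S (fun _ => p) p σ).ncard := by
  have e : orbitAt E S (fun _ => p) p σ = Set.range fun γ : GK K => mv γ σ := by
    ext τ
    constructor
    · rintro ⟨γ, -, h⟩
      exact ⟨γ, h⟩
    · rintro ⟨γ, h⟩
      exact ⟨γ, fun j hj => absurd rfl hj, h⟩
  rw [e]
  exact orbit_dvd hp (hE j) hK σ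

variable {ℓ : ℕ} [Fact ℓ.Prime]

/-- Twice the defect of the vertices of the Hodge polygons of `A` is at most two (for example elliptic
curves, abelian surfaces, motives of K3 type, motives of rank one over a CM field). -/
def Small (A : MotSystem K ℓ) : Prop :=
  ∀ (σ : A.E →+* AlgebraicClosure K) (k : ℕ), A.Vertex σ k → A.defect k ≤ 2

/-- The field of multiplications of `A` contains the field `E₀`; if the Hodge polygon of the `σ`-part
has a vertex, then the restriction of `σ` to `E₀` is in `S`; and twice the defect of a vertex is at most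
`2 p` (at the middle of the polygon, `4 p` is allowed if the field of multiplications is a CM field
and `E₀` is in its maximal totally real subfield). -/
def SmallOver (A : MotSystem K ℓ) {E₀ : Type} [Field E₀] (S : Set (E₀ →+* AlgebraicClosure K))
    (p : ℕ) : Prop :=
  ∃ e : E₀ →+* A.E, ∀ (σ : A.E →+* AlgebraicClosure K) (k : ℕ), A.Vertex σ k →
    σ.comp e ∈ S ∧ (A.defect k ≤ 2 * p ∨
      (2 * k = A.n ∧ A.defect k ≤ 4 * p ∧ (∀ x : E₀, A.conj (e x) = e x) ∧ ∃ y, A.conj y ≠ y))

theorem orb_ge (A : MotSystem K ℓ) {E₀ : Type} [Field E₀] (e : E₀ →+* A.E) {p : ℕ} (γ : GK K)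
    (σ₀ : A.E →+* AlgebraicClosure K) (k : ℕ)
    (hper : ∀ a b : ℕ, a < p → b < p → mv (γ ^ a) (σ₀.comp e) = mv (γ ^ b) (σ₀.comp e) → a = b) :
    p ≤ (A.orb γ σ₀ k).ncard := by
  classical
  have hinj : Function.Injective (fun a : Fin p => mv (γ ^ (a : ℕ)) σ₀) := by
    intro a b hab
    apply Fin.ext
    apply hper a b a.2 b.2
    rw [mv_res, mv_res]
    exact congrArg (fun τ : A.E →+* AlgebraicClosure K => τ.comp e) hab
  have h1 : (Set.range (fun a : Fin p => mv (γ ^ (a : ℕ)) σ₀)).ncard = p := by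
    rw [← Set.image_univ, Set.ncard_image_of_injective _ hinj, Set.ncard_univ,
      Nat.card_eq_fintype_card, Fintype.card_fin]
  rw [← h1]
  apply Set.ncard_le_ncard _ (Set.toFinite _)
  rintro _ ⟨a, rfl⟩
  exact ⟨a, Or.inl rfl⟩

theorem orb_ge2 (A : MotSystem K ℓ) {E₀ : Type} [Field E₀] (e : E₀ →+* A.E) {p : ℕ} (γ : GK K)
    (σ₀ : A.E →+* AlgebraicClosure K) (k : ℕ)
    (hper : ∀ a b : ℕ, a < p → b < p → mv (γ ^ a) (σ₀.comp e) = mv (γ ^ b) (σ₀.comp e) → a = b)
    (hk : 2 * k = A.n) (he : ∀ x : E₀, A.conj (e x) = e x) (y : A.E) (hy : A.conj y ≠ y) :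
    2 * p ≤ (A.orb γ σ₀ k).ncard := by
  classical
  let c : A.E →+* A.E := (A.conj : A.E →+* A.E)
  have hce : c.comp e = e := RingHom.ext he
  let f : Bool × Fin p → (A.E →+* AlgebraicClosure K) := fun x =>
    mv (γ ^ (x.2 : ℕ)) (if x.1 then σ₀.comp c else σ₀)
  have hf : ∀ x, (f x).comp e = mv (γ ^ (x.2 : ℕ)) (σ₀.comp e) := by
    rintro ⟨b, a⟩
    change (mv (γ ^ (a : ℕ)) (if b = true then σ₀.comp c else σ₀)).comp e = _
    rw [← mv_res]
    cases b with
    | false => rfl
    | true =>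
      change mv (γ ^ (a : ℕ)) ((σ₀.comp c).comp e) = _
      rw [RingHom.comp_assoc, hce]
  have hinj : Function.Injective f := by
    rintro ⟨b, a⟩ ⟨b', a'⟩ hab
    have h1 : a = a' := by
      apply Fin.ext
      apply hper a a' a.2 a'.2
      rw [← hf ⟨b, a⟩, ← hf ⟨b', a'⟩, hab]
    subst h1
    have h2 := mv_inj (γ ^ (a : ℕ)) hab
    have hne : σ₀.comp c ≠ σ₀ := by
      intro h
      apply hy
      apply σ₀.injective
      exact congrArg (fun τ : A.E →+* AlgebraicClosure K => τ y) h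
    cases b <;> cases b'
    · rfl
    · exact absurd h2.symm hne
    · exact absurd h2 hne
    · rfl
  have h1 : (Set.range f).ncard = 2 * p := by
    rw [← Set.image_univ, Set.ncard_image_of_injective _ hinj, Set.ncard_univ,
      Nat.card_eq_fintype_card, Fintype.card_prod, Fintype.card_fin, Fintype.card_bool]
  rw [← h1]
  apply Set.ncard_le_ncard _ (Set.toFinite _)
  rintro _ ⟨⟨b, a⟩, rfl⟩
  refine ⟨a, ?_⟩
  cases b with
  | false => exact Or.inl rfl
  | true => exact Or.inr ⟨hk, rfl⟩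

theorem orb_pos (A : MotSystem K ℓ) (γ : GK K) (σ₀ : A.E →+* AlgebraicClosure K) (k : ℕ) :
    1 ≤ (A.orb γ σ₀ k).ncard := by
  classical
  rw [Nat.one_le_iff_ne_zero, ← Nat.pos_iff_ne_zero, Set.ncard_pos (Set.toFinite _)]
  exact ⟨σ₀, 0, Or.inl (by rw [pow_zero, mv_one])⟩

/-- **The orbit condition** for multiplications by fields of degree divisible by `p`. -/
theorem admissible {J : Type} [Fintype J] (E : J → Type) [∀ j, Field (E j)]
    [∀ j, NumberField (E j)] (S : ∀ j, Set (E j →+* AlgebraicClosure K)) (p : J → ℕ)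
    (hS : ∀ j, Stable (S j)) (hp : ∀ j, (p j).Prime)
    (hsum : ∀ q, ∑ j : {j // p j = q}, (S j.1).ncard ≤ q ^ 2)
    (horb : ∀ j, ∀ σ ∈ S j, p j ∣ (orbitAt E S p (p j) σ).ncard)
    {ι : Type} (A : ι → MotSystem K ℓ)
    (hA : ∀ i, Small (A i) ∨ ∃ j, SmallOver (A i) (S j) (p j)) :
    ∃ γ : GK K, ∀ i, (A i).Admissible γ := by
  obtain ⟨γ, hγ⟩ := exists_long E S p hS hp hsum horb
  refine ⟨γ, fun i σ₀ k hk => ?_⟩
  rcases hA i with h | ⟨j, e, h⟩
  · have h1 := h σ₀ k hk
    have h2 := orb_pos (A i) γ σ₀ k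
    have h3 : (1 : ℤ) ≤ (((A i).orb γ σ₀ k).ncard : ℤ) := by exact_mod_cast h2
    linarith
  · obtain ⟨hmem, h⟩ := h σ₀ k hk
    rcases h with h1 | ⟨h1, h2, h3, y, hy⟩
    · have h2 := orb_ge (A i) e γ σ₀ k (hγ j (σ₀.comp e) hmem)
      have h3 : ((p j : ℕ) : ℤ) ≤ (((A i).orb γ σ₀ k).ncard : ℤ) := by exact_mod_cast h2
      linarith
    · have h4 := orb_ge2 (A i) e γ σ₀ k (hγ j (σ₀.comp e) hmem) h1 h3 y hy
      have h5 : ((2 * p j : ℕ) : ℤ) ≤ (((A i).orb γ σ₀ k).ncard : ℤ) := by exact_mod_cast h4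
      push_cast at h5
      linarith

end Pool.Agent.H853.OrdP
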