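import Pool.Graph.R_pool_sql_team_seeded_1acbe0a2.Y127.I.Gen2

/-!
# Subspaces of the orthogonal Lie algebra which are stable under a generic isometry
-/

set_option linter.unusedSectionVars false

namespace Pool.Agent.H853.Root

open Module Pool.Agent.Y127.I Polynomial

theorem aeval_mem {L U : Type} [Field L] [AddCommGroup U] [Module L U] (φ : End L U)
    {M : Submodule L U} (h : ∀ x ∈ M, φ x ∈ M) (p : L[X]) {x : U} (hx : x ∈ M) :
    aeval φ p x ∈ M := by
  induction p using Polynomial.induction_on' with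
  | add p q hp hq => rw [map_add]; exact M.add_mem hp hq
  | monomial n c =>
    rw [aeval_monomial]
    have h1 : ∀ n : ℕ, (φ ^ n) x ∈ M := by
      intro n
      induction n with
      | zero => simpa using hx
      | succ n ih => rw [pow_succ', Module.End.mul_apply]; exact h _ ih
    rw [Module.End.mul_apply]
    exact M.smul_mem c (h1 n)

theorem aeval_val {L U : Type} [Field L] [AddCommGroup U] [Module L U] (φ : End L U)
    (ℓ : U →ₗ[L] L) {c : L} (h : ∀ x, ℓ (φ x) = c * ℓ x) (p : L[X]) (x : U) :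
    ℓ (aeval φ p x) = p.eval c * ℓ x := by
  induction p using Polynomial.induction_on' with
  | add p q hp hq => rw [map_add, LinearMap.add_apply, map_add, hp, hq, eval_add]; ring
  | monomial n d =>
    rw [aeval_monomial, Module.End.mul_apply, Module.algebraMap_end_apply, map_smul, smul_eq_mul,
      eval_monomial]
    have h1 : ∀ n : ℕ, ℓ ((φ ^ n) x) = c ^ n * ℓ x := by
      intro n
      induction n with
      | zero => simp
      | succ n ih => rw [pow_succ', Module.End.mul_apply, h, ih]; ring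
    rw [h1]
    ring

variable {L : Type} [Field L] {V : Type} [AddCommGroup V] [Module L V]
  {B : V →ₗ[L] V →ₗ[L] L} {ι : Type} [Fintype ι] [DecidableEq ι]

/-- An eigenbasis of an isometry with few relations between the eigenvalues. -/
structure EB (B : V →ₗ[L] V →ₗ[L] L) (f f' : End L V) (v : Basis ι L V) (a : ι → L)
    (s : ι → ι) : Prop where
  hsy : ∀ x y, B x y = B y x
  h2 : (2 : L) ≠ 0
  iso : ∀ x y, B (f x) (f y) = B x y
  ff : f * f' = 1
  ff' : f' * f = 1
  hf : ∀ x, f (v x) = a x • v x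
  inj : Function.Injective a
  dual : ∀ x, a x * a (s x) = 1
  hs : ∀ x y, B (v x) (v y) ≠ 0 ↔ y = s x
  gen : ∀ x y z w, x ≠ y → z ≠ w → a x * a y = a z * a w →
    a x * a y = 1 ∨ (x = z ∧ y = w) ∨ (x = w ∧ y = z)
  self : ∀ x y, s x = x → s y = y → x = y

variable {f f' : End L V} {v : Basis ι L V} {a : ι → L} {s : ι → ι}

namespace EB

theorem ss (h : EB B f f' v a s) (x : ι) : s (s x) = x := by
  have h1 := (h.hs x (s x)).2 rfl
  rw [h.hsy] at h1
  exact ((h.hs _ _).1 h1).symm

theorem a0 (h : EB B f f' v a s) (x : ι) : a x ≠ 0 := by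
  intro h0
  have h1 := h.dual x
  rw [h0, zero_mul] at h1
  exact zero_ne_one h1

/-- The products of dual basis vectors. -/
theorem bb (h : EB B f f' v a s) (x y : ι) :
    B (v x) (v y) = if y = s x then B (v x) (v (s x)) else 0 := by
  by_cases hy : y = s x
  · rw [if_pos hy, hy]
  · rw [if_neg hy]
    by_contra h1
    exact hy ((h.hs x y).1 h1)

theorem bb0 (h : EB B f f' v a s) {x y : ι} (hy : y ≠ s x) : B (v x) (v y) = 0 := by
  rw [h.bb, if_neg hy]

theorem b0 (h : EB B f f' v a s) (x : ι) : B (v x) (v (s x)) ≠ 0 := (h.hs x (s x)).2 rfl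

theorem b0' (h : EB B f f' v a s) (x : ι) : B (v (s x)) (v x) ≠ 0 := by
  rw [h.hsy]
  exact h.b0 x

theorem co_repr (h : EB B f f' v a s) (x : ι) (w : V) :
    B (v x) w = v.repr w (s x) * B (v x) (v (s x)) := by
  conv_lhs => rw [← v.sum_repr w]
  rw [map_sum, Finset.sum_eq_single (s x)]
  · rw [map_smul, smul_eq_mul]
  · intro y _ hy
    rw [map_smul, h.bb0 hy, smul_zero]
  · intro h1
    exact absurd (Finset.mem_univ _) h1

theorem nd (h : EB B f f' v a s) {w : V} (hw : ∀ x, B (v x) w = 0) : w = 0 := by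
  apply v.repr.injective
  ext x
  rw [map_zero, Finsupp.zero_apply]
  have h1 := hw (s x)
  rw [h.co_repr, h.ss] at h1
  exact (mul_eq_zero.1 h1).resolve_right (h.b0' x)

theorem ext_co (h : EB B f f' v a s) {X Y : End L V}
    (hXY : ∀ x y, B (v x) (X (v y)) = B (v x) (Y (v y))) : X = Y := by
  refine v.ext fun y => ?_
  rw [← sub_eq_zero]
  refine h.nd fun x => ?_
  rw [map_sub, hXY, sub_self]

theorem hf' (h : EB B f f' v a s) (x : ι) : f' (v x) = (a x)⁻¹ • v x := by
  have h1 : f' (f (v x)) = v x := by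
    rw [← Module.End.mul_apply, h.ff', Module.End.one_apply]
  rw [h.hf, map_smul] at h1
  rw [← h1, smul_smul, inv_mul_cancel₀ (h.a0 x), one_smul, h1]

theorem adj (h : EB B f f' v a s) (x y : V) : B x (f y) = B (f' x) y := by
  have h1 : f (f' x) = x := by
    rw [← Module.End.mul_apply, h.ff, Module.End.one_apply]
  conv_lhs => rw [← h1]
  rw [h.iso]

theorem co_cj (h : EB B f f' v a s) (X : End L V) (x y : ι) :
    B (v x) ((cj f f' X) (v y)) = (a x * a y)⁻¹ * B (v x) (X (v y)) := by
  rw [cj_apply, Module.End.mul_apply, Module.End.mul_apply, h.hf', map_smul, map_smul, map_smul,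
    h.adj, h.hf', map_smul, LinearMap.smul_apply, smul_eq_mul, smul_eq_mul, mul_inv]
  ring

theorem skew (h : EB B f f' v a s) {X : End L V} (hX : X ∈ so B) (x y : ι) :
    B (v x) (X (v y)) = - B (v y) (X (v x)) := by
  have h1 := hX (v x) (v y)
  rw [h.hsy (X (v x))] at h1
  linear_combination h1

theorem skew0 (h : EB B f f' v a s) {X : End L V} (hX : X ∈ so B) (x : ι) :
    B (v x) (X (v x)) = 0 := by
  have h1 := h.skew hX x x
  have h3 : (2 : L) * B (v x) (X (v x)) = 0 := by linear_combination h1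
  exact (mul_eq_zero.1 h3).resolve_left h.h2

theorem eq_s (h : EB B f f' v a s) {x y : ι} (hxy : a x * a y = 1) : y = s x := by
  apply h.inj
  have h1 := h.dual x
  have h3 : a x * a y = a x * a (s x) := by rw [hxy, h1]
  exact mul_left_cancel₀ (h.a0 x) h3

/-- Multiplication of the coefficients by a symmetric function is a polynomial in the conjugation. -/
theorem lemA (h : EB B f f' v a s) {M : Submodule L (End L V)} (hM : M ≤ so B)
    (hst : ∀ X ∈ M, f * X * f' ∈ M) (val : ι → ι → L) (hsym : ∀ x y, val x y = val y x) {κ : L}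
    (hκ : ∀ x, s x ≠ x → val x (s x) = κ) {X : End L V} (hX : X ∈ M) :
    ∃ Y ∈ M, ∀ x y, B (v x) (Y (v y)) = val x y * B (v x) (X (v y)) := by
  classical
  let key : {p : ι × ι // p.1 ≠ p.2} → L := fun p => (a p.1.1 * a p.1.2)⁻¹
  let val' : {p : ι × ι // p.1 ≠ p.2} → L := fun p => val p.1.1 p.1.2
  have hfac : Function.FactorsThrough val' key := by
    rintro ⟨⟨x, y⟩, hxy⟩ ⟨⟨z, w⟩, hzw⟩ hkey
    change x ≠ y at hxy
    change z ≠ w at hzw
    change (a x * a y)⁻¹ = (a z * a w)⁻¹ at hkey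
    change val x y = val z w
    have hkey' : a x * a y = a z * a w := inv_injective hkey
    rcases h.gen x y z w hxy hzw hkey' with h1 | ⟨rfl, rfl⟩ | ⟨rfl, rfl⟩
    · have e1 := h.eq_s h1
      have e2 := h.eq_s (hkey'.symm.trans h1)
      rw [e1, e2, hκ x (by rw [← e1]; exact hxy.symm), hκ z (by rw [← e2]; exact hzw.symm)]
    · rfl
    · exact hsym _ _
  obtain ⟨r, hr⟩ := (Function.factorsThrough_iff val').1 hfac
  set S : Finset L := Finset.univ.image key with hS
  set p : L[X] := Lagrange.interpolate S id r with hp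
  have hev : ∀ x y, x ≠ y → p.eval (a x * a y)⁻¹ = val x y := by
    intro x y hxy
    have h1 : (a x * a y)⁻¹ ∈ S :=
      Finset.mem_image.2 ⟨⟨(x, y), hxy⟩, Finset.mem_univ _, rfl⟩
    have h3 := Lagrange.eval_interpolate_at_node r (s := S) (v := id)
      (Function.injective_id.injOn) h1
    rw [id] at h3
    rw [hp, h3]
    have h4 := congrFun hr ⟨(x, y), hxy⟩
    exact h4.symm
  refine ⟨aeval (cj f f') p X, aeval_mem _ (fun Y hY => by rw [cj_apply]; exact hst Y hY) p hX,
    fun x y => ?_⟩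
  let ℓ : End L V →ₗ[L] L :=
    { toFun := fun Y => B (v x) (Y (v y))
      map_add' := fun Y Z => by rw [LinearMap.add_apply, map_add]
      map_smul' := fun c Y => by rw [LinearMap.smul_apply, map_smul]; rfl }
  have h1 := aeval_val (cj f f') ℓ (c := (a x * a y)⁻¹) (fun Y => h.co_cj Y x y) p X
  change B (v x) ((aeval (cj f f') p X) (v y)) = _ at h1
  rw [h1]
  by_cases hxy : x = y
  · subst hxy
    change p.eval _ * B (v x) (X (v x)) = _
    rw [h.skew0 (hM hX), mul_zero, mul_zero]
  · rw [hev x y hxy]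
    rfl

/-- The elementary operators in a stable subspace. -/
theorem elem (h : EB B f f' v a s) {M : Submodule L (End L V)} (hM : M ≤ so B)
    (hst : ∀ X ∈ M, f * X * f' ∈ M) {X : End L V} (hX : X ∈ M) {x₀ y₀ : ι} (hxy : x₀ ≠ y₀)
    (hs : y₀ ≠ s x₀) (hne : B (v x₀) (X (v y₀)) ≠ 0) : wl B (v (s x₀)) (v (s y₀)) ∈ M := by
  have hs' : x₀ ≠ s y₀ := fun h1 => hs (by rw [h1, h.ss])
  obtain ⟨Y, hY, hc⟩ := h.lemA hM hst
    (fun x y => if (x = x₀ ∧ y = y₀) ∨ (x = y₀ ∧ y = x₀) then 1 else 0)
    (fun x y => by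
      have h1 : ((x = x₀ ∧ y = y₀) ∨ (x = y₀ ∧ y = x₀)) ↔
        ((y = x₀ ∧ x = y₀) ∨ (y = y₀ ∧ x = x₀)) := by tauto
      simp only [h1])
    (κ := 0) (fun x _ => by
      rw [if_neg]
      rintro (⟨rfl, h3⟩ | ⟨rfl, h3⟩)
      · exact hs h3.symm
      · exact hs' h3.symm) hX
  set k := B (v x₀) (v (s x₀)) * B (v y₀) (v (s y₀)) with hk
  have hk0 : k ≠ 0 := mul_ne_zero (h.b0 _) (h.b0 _)
  set c := B (v x₀) (X (v y₀)) * k⁻¹ with hcdef
  have hc0 : c ≠ 0 := mul_ne_zero hne (inv_ne_zero hk0)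
  have hinj : Function.Injective s := fun x y hxy => by rw [← h.ss x, hxy, h.ss]
  have hYe : Y = c • wl B (v (s x₀)) (v (s y₀)) := by
    apply h.ext_co
    intro x y
    rw [hc, LinearMap.smul_apply, map_smul, wl_apply, map_sub, map_smul, map_smul, smul_eq_mul,
      smul_eq_mul, smul_eq_mul, h.bb (s y₀) y, h.bb x (s x₀), h.bb (s x₀) y, h.bb x (s y₀), h.ss,
      h.ss]
    by_cases hx : x = x₀
    · subst hx
      by_cases hy : y = y₀
      · subst hy
        rw [if_pos (Or.inl ⟨rfl, rfl⟩), if_pos rfl, if_pos rfl, if_neg hxy.symm, zero_mul, sub_zero,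
          one_mul, h.hsy (v (s y)) (v y), hcdef, mul_assoc, mul_comm (B (v y) (v (s y))), ← hk,
          inv_mul_cancel₀ hk0, mul_one]
      · rw [if_neg (by rintro (⟨_, h3⟩ | ⟨h3, _⟩) <;> [exact hy h3; exact hxy h3]), zero_mul,
          if_neg hy, zero_mul, if_neg (fun h3 => hxy (hinj h3).symm), mul_zero, sub_zero, mul_zero]
    · by_cases hx' : x = y₀
      · subst hx'
        by_cases hy : y = x₀
        · subst hy
          rw [if_pos (Or.inr ⟨rfl, rfl⟩), if_neg hxy, zero_mul, if_pos rfl, if_pos rfl, zero_sub,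
            one_mul, h.skew (hM hX), h.hsy (v (s y)) (v y), ← hk, hcdef, mul_neg, mul_assoc,
            inv_mul_cancel₀ hk0, mul_one]
        · rw [if_neg (by rintro (⟨h3, _⟩ | ⟨_, h3⟩) <;> [exact hx h3; exact hy h3]), zero_mul,
            if_neg (fun h3 => hxy (hinj h3)), mul_zero, if_neg hy, zero_mul, sub_zero, mul_zero]
      · rw [if_neg (by rintro (⟨h3, _⟩ | ⟨h3, _⟩) <;> [exact hx h3; exact hx' h3]), zero_mul,
          if_neg (fun h3 => hx (hinj h3).symm), mul_zero,
          if_neg (fun h3 => hx' (hinj h3).symm), mul_zero, sub_zero, mul_zero]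
  rw [hYe] at hY
  have h5 := M.smul_mem c⁻¹ hY
  rwa [smul_smul, inv_mul_cancel₀ hc0, one_smul] at h5

/-- The operators of the torus. -/
theorem tor (h : EB B f f' v a s) (z y : ι) : wl B (v z) (v (s z)) (v y) =
    ((if y = z then B (v z) (v (s z)) else 0) -
      (if y = s z then B (v z) (v (s z)) else 0)) • v y := by
  rw [wl_apply, h.bb (s z) y, h.bb z y, h.ss]
  by_cases h1 : y = z
  · subst h1
    rw [if_pos rfl, if_pos rfl, h.hsy (v (s y)) (v y)]
    by_cases h3 : y = s y
    · rw [if_pos h3, ← h3, sub_self, sub_self, zero_smul]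
    · rw [if_neg h3]
      module
  · rw [if_neg h1, if_neg h1]
    by_cases h3 : y = s z
    · subst h3
      rw [if_pos rfl]
      module
    · rw [if_neg h3]
      module

/-- The normalizer of a subspace. -/
def nor (B : V →ₗ[L] V →ₗ[L] L) (M : Submodule L (End L V)) : Submodule L (End L V) where
  carrier := {Y | Y ∈ so B ∧ ∀ X ∈ M, bk Y X ∈ M}
  zero_mem' := ⟨(so B).zero_mem, fun X _ => by rw [bk_zero_left]; exact M.zero_mem⟩
  add_mem' := fun hY hZ => ⟨(so B).add_mem hY.1 hZ.1, fun X hX => by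
    rw [bk_add_left]; exact M.add_mem (hY.2 X hX) (hZ.2 X hX)⟩
  smul_mem' := fun c Y hY => ⟨(so B).smul_mem c hY.1, fun X hX => by
    rw [bk_smul_left]; exact M.smul_mem _ (hY.2 X hX)⟩

theorem mem_nor {M : Submodule L (End L V)} {Y : End L V} :
    Y ∈ nor B M ↔ Y ∈ so B ∧ ∀ X ∈ M, bk Y X ∈ M := Iff.rfl

theorem nor_le {M : Submodule L (End L V)} : nor B M ≤ so B := fun _ hY => hY.1

theorem nor_bk {M : Submodule L (End L V)} {Y Z : End L V} (hY : Y ∈ nor B M)
    (hZ : Z ∈ nor B M) : bk Y Z ∈ nor B M := by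
  refine ⟨bk_mem hY.1 hZ.1, fun X hX => ?_⟩
  have h1 : bk (bk Y Z) X = bk Y (bk Z X) - bk Z (bk Y X) := by
    unfold bk
    simp only [mul_sub, sub_mul, mul_assoc]
    abel
  rw [h1]
  exact M.sub_mem (hY.2 _ (hZ.2 X hX)) (hZ.2 _ (hY.2 X hX))

theorem nor_conj {M : Submodule L (End L V)} {g g' : End L V}
    (hg : ∀ x y, B (g x) (g y) = B x y) (hgg : g * g' = 1)
    (h1 : ∀ X ∈ M, g * X * g' ∈ M) (h3 : ∀ X ∈ M, g' * X * g ∈ M) {Y : End L V}
    (hY : Y ∈ nor B M) : g * Y * g' ∈ nor B M := by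
  refine ⟨conj_mem hg hgg hY.1, fun X hX => ?_⟩
  have h4 := h1 _ (hY.2 _ (h3 X hX))
  have h5 : bk (g * Y * g') X = g * bk Y (g' * X * g) * g' := by
    unfold bk
    have e1 : g * (Y * (g' * X * g) - g' * X * g * Y) * g' =
        g * Y * g' * X * (g * g') - (g * g') * X * g * Y * g' := by noncomm_ring
    rw [e1, hgg, mul_one, one_mul]
    noncomm_ring
  rw [h5]
  exact h4

/-- The torus normalizes every stable subspace. -/
theorem tor_nor (h : EB B f f' v a s) {M : Submodule L (End L V)} (hM : M ≤ so B)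
    (hst : ∀ X ∈ M, f * X * f' ∈ M) (z : ι) : wl B (v z) (v (s z)) ∈ nor B M := by
  refine ⟨wl_mem h.hsy _ _, fun X hX => ?_⟩
  let t : ι → L := fun y => (if y = z then B (v z) (v (s z)) else 0) -
      (if y = s z then B (v z) (v (s z)) else 0)
  have ht : ∀ y, wl B (v z) (v (s z)) (v y) = t y • v y := h.tor z
  have hts : ∀ y, t y + t (s y) = 0 := by
    intro y
    have h1 : (s y = z) ↔ (y = s z) := by
      constructor
      · intro h3; rw [← h3, h.ss]
      · intro h3; rw [h3, h.ss]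
    have h3 : (s y = s z) ↔ (y = z) := by
      constructor
      · intro h4; rw [← h.ss y, h4, h.ss]
      · intro h4; rw [h4]
    change (if y = z then _ else _) - (if y = s z then _ else _) +
      ((if s y = z then _ else _) - (if s y = s z then _ else _)) = 0
    simp only [h1, h3]
    ring
  obtain ⟨Y, hY, hc⟩ := h.lemA hM hst (fun x y => -(t x + t y)) (fun x y => by rw [add_comm])
    (κ := 0) (fun x _ => by rw [hts, neg_zero]) hX
  have h1 : bk (wl B (v z) (v (s z))) X = Y := by
    apply h.ext_co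
    intro x y
    rw [hc]
    unfold bk
    rw [LinearMap.sub_apply, map_sub, Module.End.mul_apply, Module.End.mul_apply, ht, map_smul,
      map_smul, smul_eq_mul]
    have h3 : B (v x) (wl B (v z) (v (s z)) (X (v y))) =
        - B (wl B (v z) (v (s z)) (v x)) (X (v y)) := by
      linear_combination wl_mem h.hsy (v z) (v (s z)) (v x) (X (v y))
    rw [h3, ht, map_smul, LinearMap.smul_apply, smul_eq_mul]
    ring
  rw [h1]
  exact hY

/-- Subspaces which are stable under the torus are spanned by basis vectors. -/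
theorem coord (h : EB B f f' v a s) {W : Submodule L V}
    (hW : ∀ z, ∀ w ∈ W, wl B (v z) (v (s z)) w ∈ W) {w : V} (hw : w ∈ W) (z : ι)
    (hz : v.repr w z ≠ 0) : v z ∈ W := by
  have key : ∀ z, s z ≠ z → v.repr w z • v z ∈ W := by
    intro z hsz
    set T := wl B (v z) (v (s z)) with hT
    set b := B (v z) (v (s z)) with hb
    have hb0 : b ≠ 0 := h.b0 z
    have e1 : T w = (b * v.repr w z) • v z - (b * v.repr w (s z)) • v (s z) := by
      rw [hT, wl_apply, h.co_repr (s z) w, h.co_repr z w, h.ss, h.hsy (v (s z)) (v z), ← hb]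
      congr 2 <;> ring
    have e2 : T (v z) = b • v z := by
      rw [hT, h.tor, if_pos rfl, if_neg (fun h1 => hsz h1.symm), sub_zero]
    have e3 : T (v (s z)) = -(b • v (s z)) := by
      rw [hT, h.tor, if_neg hsz, if_pos rfl, zero_sub, neg_smul]
    have e4 : T (T w) = (b * b * v.repr w z) • v z + (b * b * v.repr w (s z)) • v (s z) := by
      rw [e1, map_sub, map_smul, map_smul, e2, e3]
      module
    have e5 : T (T w) + b • T w = (2 * b * b) • (v.repr w z • v z) := by
      rw [e4, e1]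
      module
    have h6 := W.add_mem (hW z _ (hW z _ hw)) (W.smul_mem b (hW z _ hw))
    rw [← hT, e5] at h6
    have h7 : (2 * b * b) ≠ 0 := mul_ne_zero (mul_ne_zero h.h2 hb0) hb0
    have h8 := W.smul_mem (2 * b * b)⁻¹ h6
    rwa [smul_smul, inv_mul_cancel₀ h7, one_smul] at h8
  have h1 : v.repr w z • v z ∈ W := by
    by_cases hsz : s z = z
    · have h3 : v.repr w z • v z = w - ∑ x ∈ Finset.univ.erase z, v.repr w x • v x := by
        conv_rhs => lhs; rw [← v.sum_repr w]
        rw [← Finset.add_sum_erase _ _ (Finset.mem_univ z)]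
        abel
      rw [h3]
      refine W.sub_mem hw (W.sum_mem fun x hx => key x fun hsx => ?_)
      exact (Finset.mem_erase.1 hx).1 (h.self x z hsx hsz)
    · exact key z hsz
  have h3 := W.smul_mem (v.repr w z)⁻¹ h1
  rwa [smul_smul, inv_mul_cancel₀ hz, one_smul] at h3

/-- The bracket of two elementary operators. -/
theorem br (h : EB B f f' v a s) {N : Submodule L (End L V)}
    (hlie : ∀ Y ∈ N, ∀ Z ∈ N, bk Y Z ∈ N) {u x y : ι} (h1 : wl B (v u) (v (s x)) ∈ N)
    (h2 : wl B (v x) (v y) ∈ N) (hux : u ≠ s x) (hyx : y ≠ x) (hyu : y ≠ s u) :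
    wl B (v u) (v y) ∈ N := by
  have h3 := hlie _ h1 _ h2
  have e1 : wl B (v u) (v (s x)) (v x) = B (v (s x)) (v x) • v u := by
    rw [wl_apply, h.bb0 (x := u) (y := x) (fun h4 => hux (by rw [h4, h.ss])), zero_smul, sub_zero]
  have e2 : wl B (v u) (v (s x)) (v y) = 0 := by
    rw [wl_apply, h.bb0 (x := u) (y := y) hyu, zero_smul, sub_zero,
      h.bb0 (x := s x) (y := y) (by rw [h.ss]; exact hyx), zero_smul]
  rw [bk_wl (wl_mem h.hsy _ _), e1, e2, map_zero, add_zero, map_smul, LinearMap.smul_apply] at h3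
  have h4 := N.smul_mem (B (v (s x)) (v x))⁻¹ h3
  rwa [smul_smul, inv_mul_cancel₀ (h.b0' x), one_smul] at h4

/-- A Lie algebra which contains the torus, is stable under the isometry and acts irreducibly
contains all elementary operators. -/
theorem full (h : EB B f f' v a s) {N : Submodule L (End L V)} (hN : N ≤ so B)
    (hst : ∀ X ∈ N, f * X * f' ∈ N) (hlie : ∀ Y ∈ N, ∀ Z ∈ N, bk Y Z ∈ N)
    (htor : ∀ z, wl B (v z) (v (s z)) ∈ N)
    (hirr : ∀ W : Submodule L V, (∀ Y ∈ N, ∀ w ∈ W, Y w ∈ W) → W = ⊥ ∨ W = ⊤) (x y : ι) :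
    wl B (v x) (v y) ∈ N := by
  have hsw : ∀ x y, wl B (v x) (v y) ∈ N → wl B (v y) (v x) ∈ N := by
    intro x y hxy
    rw [wl_swap]
    exact N.neg_mem hxy
  have hsinj : ∀ {x y}, s x = s y → x = y := fun {x y} hxy => by rw [← h.ss x, hxy, h.ss]
  have main : ∀ z x, x ≠ z → x ≠ s z → wl B (v x) (v (s z)) ∈ N := by
    intro z
    set I : ι → Prop := fun x => x = z ∨ (x ≠ s z ∧ wl B (v x) (v (s z)) ∈ N) ∨
      (x = s z ∧ ∃ w, w ≠ z ∧ w ≠ s z ∧ wl B (v w) (v (s z)) ∈ N ∧
        wl B (v (s z)) (v (s w)) ∈ N) with hI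
    have hstep : ∀ x u, I x → u ≠ x → u ≠ s x → wl B (v u) (v (s x)) ∈ N → I u := by
      intro x u hx hux hus hE
      by_cases huz : u = z
      · exact Or.inl huz
      rcases hx with rfl | ⟨hx1, hx2⟩ | ⟨rfl, w, hw1, hw2, hw3, hw4⟩
      · exact Or.inr (Or.inl ⟨hus, hE⟩)
      · by_cases hxz : x = z
        · subst hxz
          exact Or.inr (Or.inl ⟨hus, hE⟩)
        by_cases husz : u = s z
        · subst husz
          exact Or.inr (Or.inr ⟨rfl, x, hxz, hx1, hx2, hE⟩)
        · refine Or.inr (Or.inl ⟨husz, h.br hlie hE hx2 hus (fun h1 => hx1 h1.symm) ?_⟩)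
          exact fun h1 => huz (hsinj h1).symm
      · rw [h.ss] at hE hus
        by_cases husz : u = s z
        · exact absurd husz hux
        refine Or.inr (Or.inl ⟨husz, ?_⟩)
        by_cases huw : u = w
        · rw [huw]; exact hw3
        by_cases husw : u = s w
        · rw [husw]; exact hsw _ _ hw4
        have h1 : wl B (v u) (v (s w)) ∈ N := by
          refine h.br (x := s z) hlie (by rw [h.ss]; exact hE) hw4 (by rw [h.ss]; exact hus) ?_ ?_
          · exact fun h1 => hw1 (hsinj h1)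
          · exact fun h1 => huw (hsinj h1).symm
        exact h.br hlie h1 hw3 husw (fun h1 => hw2 h1.symm) (fun h1 => huz (hsinj h1).symm)
    set U : Submodule L V := Submodule.span L {w | ∃ x, I x ∧ w = v x} with hU
    have hUst : ∀ Y ∈ N, ∀ w ∈ U, Y w ∈ U := by
      intro Y hY w hw
      induction hw using Submodule.span_induction with
      | zero => rw [map_zero]; exact U.zero_mem
      | add w w' _ _ h1 h3 => rw [map_add]; exact U.add_mem h1 h3
      | smul c w _ h1 => rw [map_smul]; exact U.smul_mem c h1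
      | mem w hw =>
        obtain ⟨x, hx, rfl⟩ := hw
        rw [← v.sum_repr (Y (v x))]
        refine U.sum_mem fun u _ => ?_
        by_cases hu : v.repr (Y (v x)) u = 0
        · rw [hu, zero_smul]
          exact U.zero_mem
        refine U.smul_mem _ (Submodule.subset_span ⟨u, ?_, rfl⟩)
        have hne : B (v (s u)) (Y (v x)) ≠ 0 := by
          rw [h.co_repr, h.ss]
          exact mul_ne_zero hu (h.b0' u)
        by_cases hux : u = x
        · rw [hux]; exact hx
        have hus : s u ≠ x := by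
          intro h1
          rw [h1, h.skew0 (hN hY)] at hne
          exact hne rfl
        have h1 := h.elem hN hst hY (x₀ := s u) (y₀ := x) hus
          (by rw [h.ss]; exact fun h1 => hux h1.symm) hne
        rw [h.ss] at h1
        exact hstep x u hx hux (fun h3 => hus (by rw [h3, h.ss])) h1
    have hUtop : U = ⊤ := by
      refine (hirr U hUst).resolve_left fun h1 => ?_
      have h3 : v z ∈ U := Submodule.subset_span ⟨z, Or.inl rfl, rfl⟩
      rw [h1, Submodule.mem_bot] at h3
      exact v.ne_zero z h3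
    have hcoord : ∀ w ∈ U, ∀ x, ¬ I x → v.repr w x = 0 := by
      intro w hw x hx
      induction hw using Submodule.span_induction with
      | zero => rw [map_zero]; rfl
      | add w w' _ _ h1 h3 => rw [map_add, Finsupp.add_apply, h1, h3, add_zero]
      | smul c w _ h1 => rw [map_smul, Finsupp.smul_apply, h1, smul_zero]
      | mem w hw =>
        obtain ⟨y, hy, rfl⟩ := hw
        rw [Basis.repr_self, Finsupp.single_apply, if_neg]
        rintro rfl
        exact hx hy
    intro x hxz hxs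
    have hIx : I x := by
      by_contra h1
      have h3 := hcoord (v x) (by rw [hUtop]; trivial) x h1
      rw [Basis.repr_self, Finsupp.single_eq_same] at h3
      exact one_ne_zero h3
    rcases hIx with h1 | ⟨_, h1⟩ | ⟨h1, _⟩
    · exact absurd h1 hxz
    · exact h1
    · exact absurd h1 hxs
  by_cases hxy : x = y
  · rw [hxy, wl_self]
    exact N.zero_mem
  by_cases hxs : x = s y
  · have h1 := hsw _ _ (htor y)
    rw [hxs]
    exact h1
  have h1 := main (s y) x hxs (by rw [h.ss]; exact hxy)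
  rwa [h.ss] at h1

/-- Strong irreducibility under the group implies irreducibility under a Lie algebra which contains
the torus and is stable under the group. -/
theorem irr_nor {Γ : Type} [Group Γ] (h : EB B f f' v a s) {N : Submodule L (End L V)}
    (htor : ∀ z, wl B (v z) (v (s z)) ∈ N) (g : Γ →* End L V)
    (hN : ∀ γ, ∀ Y ∈ N, g γ * Y * g γ⁻¹ ∈ N)
    (hs : ∀ Δ : Subgroup Γ, Δ.index ≠ 0 → Δ.index ≤ Fintype.card ι → ∀ W : Submodule L V,
      (∀ γ ∈ Δ, ∀ x ∈ W, g γ x ∈ W) → W = ⊥ ∨ W = ⊤) (W : Submodule L V)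
    (hW : ∀ Y ∈ N, ∀ w ∈ W, Y w ∈ W) : W = ⊥ ∨ W = ⊤ := by
  classical
  have : FiniteDimensional L V := v.finiteDimensional_of_finite
  by_cases hW0 : W = ⊥
  · exact Or.inl hW0
  right
  set S : Set (Submodule L V) := {W | (∀ Y ∈ N, ∀ w ∈ W, Y w ∈ W) ∧ W ≠ ⊥} with hS
  obtain ⟨W₀, hW₀S, hmin⟩ : ∃ W₀ ∈ S, ∀ W' ∈ S, finrank L W₀ ≤ finrank L W' := by
    obtain ⟨W₀, h1, h3⟩ := exists_minimalFor_of_wellFoundedLT (fun W => W ∈ S)
      (fun W => finrank L W) ⟨W, hW, hW0⟩
    exact ⟨W₀, h1, fun W' hW' => by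
      by_contra h4
      push Not at h4
      exact absurd (h3 hW' h4.le) (not_le.2 h4)⟩
  have heq : ∀ W₁ W₂ : Submodule L V, finrank L W₁ = finrank L W₀ → W₂ ∈ S → W₂ ≤ W₁ → W₂ = W₁ :=
    fun W₁ W₂ h1 h3 h4 => Submodule.eq_of_le_of_finrank_le h4 (by rw [h1]; exact hmin _ h3)
  set G : ι → Submodule L V := fun x => sInf {W | (∀ Y ∈ N, ∀ w ∈ W, Y w ∈ W) ∧ v x ∈ W} with hG
  have hgS : ∀ γ, W₀.map (g γ) ∈ S := by
    intro γ
    refine ⟨?_, ?_⟩
    · rintro Y hY _ ⟨w, hw, rfl⟩
      refine ⟨(g γ⁻¹ * Y * g γ) w, ?_, ?_⟩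
      · have h1 := hN γ⁻¹ Y hY
        rw [inv_inv] at h1
        exact hW₀S.1 _ h1 w hw
      · have h1 : g γ * (g γ⁻¹ * Y * g γ) = Y * g γ := by
          rw [← mul_assoc, ← mul_assoc, g_mul_inv, one_mul]
        exact congrArg (fun f : End L V => f w) h1
    · intro h1
      apply hW₀S.2
      rw [Submodule.eq_bot_iff]
      intro w hw
      have h3 : g γ w ∈ W₀.map (g γ) := ⟨w, hw, rfl⟩
      rw [h1, Submodule.mem_bot] at h3
      have h4 : g γ⁻¹ (g γ w) = w := congrArg (fun f : End L V => f w) (g_inv_mul g γ)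
      rw [← h4, h3, map_zero]
  have hinj : ∀ γ, Function.Injective (g γ) := by
    intro γ x y hxy
    have h4 : ∀ w, g γ⁻¹ (g γ w) = w := fun w =>
      congrArg (fun f : End L V => f w) (g_inv_mul g γ)
    rw [← h4 x, hxy, h4]
  have hfr : ∀ γ, finrank L (W₀.map (g γ)) = finrank L W₀ := fun γ =>
    (LinearEquiv.finrank_eq (Submodule.equivMapOfInjective (g γ) (hinj γ) W₀)).symm
  have hgen : ∀ W₁ : Submodule L V, W₁ ∈ S → finrank L W₁ = finrank L W₀ → ∃ x, W₁ = G x := by
    intro W₁ h1 h3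
    obtain ⟨w, hw, hw0⟩ := (Submodule.ne_bot_iff _).1 h1.2
    obtain ⟨x, hx⟩ : ∃ x, v.repr w x ≠ 0 := by
      by_contra hcon
      push Not at hcon
      apply hw0
      apply v.repr.injective
      ext x
      rw [hcon x, map_zero, Finsupp.zero_apply]
    have hxW := h.coord (fun z w hw => h1.1 _ (htor z) w hw) hw x hx
    refine ⟨x, (heq W₁ (G x) h3 ⟨?_, ?_⟩ (sInf_le ⟨h1.1, hxW⟩)).symm⟩
    · intro Y hY w hw
      rw [hG, Submodule.mem_sInf] at hw ⊢
      exact fun W' hW' => hW'.1 Y hY w (hw W' hW')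
    · intro h4
      have h5 : v x ∈ G x := by
        rw [hG, Submodule.mem_sInf]
        exact fun W' hW' => hW'.2
      rw [h4, Submodule.mem_bot] at h5
      exact v.ne_zero x h5
  let Δ : Subgroup Γ :=
    { carrier := {γ | W₀.map (g γ) = W₀}
      one_mem' := by
        change W₀.map (g 1) = W₀
        rw [map_one]
        exact Submodule.map_id W₀
      mul_mem' := by
        intro a b ha hb
        change W₀.map (g (a * b)) = W₀
        have h1 : g (a * b) = (g a).comp (g b) := map_mul g a b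
        rw [h1, Submodule.map_comp, show W₀.map (g b) = W₀ from hb]
        exact ha
      inv_mem' := by
        intro a ha
        change W₀.map (g a⁻¹) = W₀
        conv_lhs => rw [← show W₀.map (g a) = W₀ from ha]
        rw [← Submodule.map_comp]
        have h1 : (g a⁻¹).comp (g a) = LinearMap.id := g_inv_mul g a
        rw [h1, Submodule.map_id] }
  have hΔ : ∀ a b : Γ, W₀.map (g a) = W₀.map (g b) → a⁻¹ * b ∈ Δ := by
    intro a b hab
    change W₀.map (g (a⁻¹ * b)) = W₀
    have h1 : g (a⁻¹ * b) = (g a⁻¹).comp (g b) := map_mul g a⁻¹ b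
    rw [h1, Submodule.map_comp, ← hab, ← Submodule.map_comp]
    have h3 : (g a⁻¹).comp (g a) = LinearMap.id := g_inv_mul g a
    rw [h3, Submodule.map_id]
  choose X hX using fun γ => hgen _ (hgS γ) (hfr γ)
  let φ : Γ ⧸ Δ → ι := fun q => X q.out
  have hφ : Function.Injective φ := by
    intro q q' hqq
    have h1 : W₀.map (g q.out) = W₀.map (g q'.out) := by
      rw [hX, hX]
      exact congrArg G hqq
    rw [← QuotientGroup.out_eq' q, ← QuotientGroup.out_eq' q', QuotientGroup.eq]
    exact hΔ _ _ h1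
  have : Finite (Γ ⧸ Δ) := Finite.of_injective φ hφ
  have hidx : Δ.index ≤ Fintype.card ι := by
    have h1 := Nat.card_le_card_of_injective φ hφ
    rwa [Nat.card_eq_fintype_card (α := ι)] at h1
  have hW₀top : W₀ = ⊤ := by
    refine (hs Δ Subgroup.index_ne_zero_of_finite hidx W₀ ?_).resolve_left hW₀S.2
    intro γ hγ x hx
    have h1 : W₀.map (g γ) = W₀ := hγ
    rw [← h1]
    exact ⟨x, hx, rfl⟩
  have h1 := hmin W ⟨hW, hW0⟩
  rw [hW₀top, finrank_top] at h1
  exact Submodule.eq_top_of_finrank_eq (le_antisymm (Submodule.finrank_le _) h1)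

end EB

end Pool.Agent.H853.Root
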