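import Pool.Agent.H853.Root

/-!
# Irreducibility of the skew matrices from a generic isometry, algebraically closed fields
-/

set_option linter.unusedSectionVars false

namespace Pool.Agent.H853.Root

open Module Pool.Agent.Y127.I Polynomial

/-- Simple roots, `-1` is not a root, and no relations `a b = c d` except for the obvious ones. -/
structure Good {L : Type} [Field L] (P : L[X]) : Prop where
  sep : ∀ a, P.IsRoot a → ¬ P.derivative.IsRoot a
  neg : ¬ P.IsRoot (-1)
  rel : ∀ a b c d, P.IsRoot a → P.IsRoot b → P.IsRoot c → P.IsRoot d → a ≠ b → c ≠ d →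
    a * b = c * d → a * b = 1 ∨ a = c ∨ a = d

variable {L : Type} [Field L] {m : ℕ} {Γ : Type} [Group Γ]

theorem wl_all {V : Type} [AddCommGroup V] [Module L V] {B : V →ₗ[L] V →ₗ[L] L} {ι : Type}
    (v : Basis ι L V) {N : Submodule L (End L V)} (h : ∀ x y, wl B (v x) (v y) ∈ N) (x y : V) :
    wl B x y ∈ N := by
  have h1 : ∀ i, ∀ y : V, wl B (v i) y ∈ N := by
    intro i y
    have hy : y ∈ Submodule.span L (Set.range v) := by rw [v.span_eq]; trivial
    induction hy using Submodule.span_induction with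
    | mem y hy => obtain ⟨j, rfl⟩ := hy; exact h i j
    | zero => rw [map_zero]; exact N.zero_mem
    | add y z _ _ hy hz => rw [map_add]; exact N.add_mem hy hz
    | smul c y _ hy => rw [map_smul]; exact N.smul_mem _ hy
  have hx : x ∈ Submodule.span L (Set.range v) := by rw [v.span_eq]; trivial
  induction hx using Submodule.span_induction with
  | mem x hx => obtain ⟨i, rfl⟩ := hx; exact h1 i y
  | zero => rw [map_zero]; exact N.zero_mem
  | add x z _ _ hx hz => rw [map_add, LinearMap.add_apply]; exact N.add_mem hx hz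
  | smul c x _ hx => rw [map_smul, LinearMap.smul_apply]; exact N.smul_mem _ hx

/-- **Main step**, for operators. -/
theorem main_op {V : Type} [AddCommGroup V] [Module L V] {B : V →ₗ[L] V →ₗ[L] L} {ι : Type}
    [Fintype ι] [DecidableEq ι] {v : Basis ι L V} {a : ι → L} {s : ι → ι} {g : Γ →* End L V}
    {γ₀ : Γ} (h : EB B (g γ₀) (g γ₀⁻¹) v a s)
    (hg : ∀ γ x y, B (g γ x) (g γ y) = B x y) {n : ℕ} (v' : Basis (Fin n) L V)
    (hv : ∀ i j, i ≠ j → B (v' i) (v' j) = 0) (hb : ∀ i, B (v' i) (v' i) ≠ 0)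
    (hn : n = 3 ∨ 5 ≤ n)
    (hs : ∀ Δ : Subgroup Γ, Δ.index ≠ 0 → Δ.index ≤ Fintype.card ι → ∀ W : Submodule L V,
      (∀ γ ∈ Δ, ∀ x ∈ W, g γ x ∈ W) → W = ⊥ ∨ W = ⊤) {M : Submodule L (End L V)}
    (hM : M ≤ so B) (hst : ∀ γ, ∀ X ∈ M, g γ * X * g γ⁻¹ ∈ M) : M = ⊥ ∨ so B ≤ M := by
  have hNst : ∀ γ, ∀ Y ∈ EB.nor B M, g γ * Y * g γ⁻¹ ∈ EB.nor B M := by
    intro γ Y hY
    refine EB.nor_conj (hg γ) (g_mul_inv g γ) (hst γ) (fun X hX => ?_) hY
    have h1 := hst γ⁻¹ X hX
    rwa [inv_inv] at h1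
  have htor := fun z => h.tor_nor hM (hst γ₀) z
  have hirr := h.irr_nor htor g hNst hs
  have hfull := h.full (N := EB.nor B M) EB.nor_le (hNst γ₀)
    (fun Y hY Z hZ => EB.nor_bk hY hZ) htor hirr
  have hso : so B ≤ EB.nor B M := so_le_of_wl v' hv hb h.hsy h.h2
    (fun i j _ => wl_all v hfull _ _)
  by_cases hM0 : M = ⊥
  · exact Or.inl hM0
  right
  exact simple_so v' hv hb hM (fun Y hY X hX => (hso hY).2 X hX) h.hsy h.h2
    (by rw [Fintype.card_fin]; exact hn) hM0

/-- The eigenbasis of a generic isometry. -/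
theorem exists_EB [IsAlgClosed L] {A : Matrix (Fin m) (Fin m) L} (hA : A.IsSymm) (hd : A.det ≠ 0)
    (h2 : (2 : L) ≠ 0) {U U' : Matrix (Fin m) (Fin m) L} (hU : U.transpose * A * U = A)
    (hUU : U * U' = 1) (hUU' : U' * U = 1) (hgood : Good U.charpoly) :
    ∃ (ι : Type) (_ : Fintype ι) (_ : DecidableEq ι) (v : Basis ι L (Fin m → L)) (a : ι → L)
      (s : ι → ι), Fintype.card ι = m ∧
      EB (bil A) (Matrix.toLin' U) (Matrix.toLin' U') v a s := by
  classical
  set P := U.charpoly with hP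
  have hP0 : P ≠ 0 := (Matrix.charpoly_monic U).ne_zero
  have hnod : P.roots.Nodup := by
    rw [Multiset.nodup_iff_count_le_one]
    intro x
    rw [count_roots]
    by_contra hcon
    push Not at hcon
    have h1 := (one_lt_rootMultiplicity_iff_isRoot hP0).1 hcon
    exact hgood.sep x h1.1 h1.2
  have hcard : P.roots.card = m := by
    have h1 := splits_iff_card_roots.1 (IsAlgClosed.splits P)
    rw [h1, hP, Matrix.charpoly_natDegree_eq_dim, Fintype.card_fin]
  set ι := {x // x ∈ P.roots.toFinset} with hι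
  have hιc : Fintype.card ι = m := by
    rw [Fintype.card_coe, Multiset.toFinset_card_of_nodup hnod, hcard]
  let a : ι → L := Subtype.val
  have hroot : ∀ x : ι, P.IsRoot (a x) := fun x => by
    have h1 := x.2
    rw [Multiset.mem_toFinset, mem_roots hP0] at h1
    exact h1
  have hev : ∀ x : ι, ∃ w, Module.End.HasEigenvector (Matrix.toLin' U) (a x) w := by
    intro x
    have h1 : Module.End.HasEigenvalue (Matrix.toLin' U) (a x) := by
      rw [Module.End.hasEigenvalue_iff_isRoot_charpoly, Matrix.charpoly_toLin']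
      exact hroot x
    exact h1.exists_hasEigenvector
  choose w hw using hev
  have hli := Module.End.eigenvectors_linearIndependent' (Matrix.toLin' U) a
    Subtype.val_injective w hw
  have hfin : Fintype.card ι = finrank L (Fin m → L) := by rw [hιc, finrank_fin_fun]
  have htop : ⊤ ≤ Submodule.span L (Set.range w) := by
    rw [← Submodule.eq_top_of_finrank_eq (S := Submodule.span L (Set.range w))]
    rw [finrank_span_eq_card hli, hfin]
  let v : Basis ι L (Fin m → L) := Basis.mk hli htop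
  have hvw : ∀ x, v x = w x := fun x => Basis.mk_apply hli htop x
  have hf : ∀ x, Matrix.toLin' U (v x) = a x • v x := by
    intro x
    rw [hvw]
    exact (hw x).apply_eq_smul
  have hiso := isom_of_matrix hU
  have hB : ∀ x y, bil A (v x) (v y) ≠ 0 → a x * a y = 1 := by
    intro x y hxy
    have h1 := hiso (v x) (v y)
    rw [hf, hf, map_smul, map_smul, LinearMap.smul_apply, smul_eq_mul, smul_eq_mul,
      ← mul_assoc] at h1
    have h3 : (a y * a x - 1) * bil A (v x) (v y) = 0 := by linear_combination h1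
    have h4 := (mul_eq_zero.1 h3).resolve_right hxy
    linear_combination h4
  have hex : ∀ x, ∃ y, bil A (v x) (v y) ≠ 0 := by
    intro x
    by_contra hcon
    push Not at hcon
    apply v.ne_zero x
    refine nd_of_det hd _ fun y => ?_
    rw [← v.sum_repr y, map_sum]
    refine Finset.sum_eq_zero fun z _ => ?_
    rw [map_smul, hcon, smul_zero]
  choose s hs using hex
  have hdual : ∀ x, a x * a (s x) = 1 := fun x => hB x _ (hs x)
  have ha0 : ∀ x, a x ≠ 0 := fun x h0 => by
    have h1 := hdual x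
    rw [h0, zero_mul] at h1
    exact zero_ne_one h1
  have hinj : Function.Injective a := Subtype.val_injective
  refine ⟨ι, inferInstance, inferInstance, v, a, s, hιc,
    { hsy := bil_symm hA, h2 := h2, iso := hiso, ff := ?_, ff' := ?_, hf := hf, inj := hinj,
      dual := hdual, hs := ?_, gen := ?_, self := ?_ }⟩
  · have h4 : Matrix.toLin' U * Matrix.toLin' U' = Matrix.toLin' (U * U') := by
      rw [Matrix.toLin'_mul]; rfl
    rw [h4, hUU, Matrix.toLin'_one]
    rfl
  · have h4 : Matrix.toLin' U' * Matrix.toLin' U = Matrix.toLin' (U' * U) := by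
      rw [Matrix.toLin'_mul]; rfl
    rw [h4, hUU', Matrix.toLin'_one]
    rfl
  · intro x y
    constructor
    · intro h1
      apply hinj
      have h3 := hB x y h1
      have h4 : a x * a y = a x * a (s x) := by rw [h3, hdual]
      exact mul_left_cancel₀ (ha0 x) h4
    · rintro rfl
      exact hs x
  · intro x y z u hxy hzu h1
    rcases hgood.rel (a x) (a y) (a z) (a u) (hroot x) (hroot y) (hroot z) (hroot u)
      (fun h3 => hxy (hinj h3)) (fun h3 => hzu (hinj h3)) h1 with h3 | h3 | h3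
    · exact Or.inl h3
    · right; left
      refine ⟨hinj h3, hinj ?_⟩
      rw [h3] at h1
      exact mul_left_cancel₀ (ha0 z) h1
    · right; right
      refine ⟨hinj h3, hinj ?_⟩
      rw [h3, mul_comm] at h1
      exact mul_right_cancel₀ (ha0 u) h1
  · intro x y hx hy
    have key : ∀ x, s x = x → a x = 1 := by
      intro x hx
      have h1 := hdual x
      rw [hx] at h1
      have h3 : (a x - 1) * (a x + 1) = 0 := by linear_combination h1
      rcases mul_eq_zero.1 h3 with h4 | h4
      · linear_combination h4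
      · exfalso
        apply hgood.neg
        have h5 : a x = -1 := by linear_combination h4
        rw [← h5]
        exact hroot x
    apply hinj
    rw [key x hx, key y hy]

/-- **Irreducibility of the skew matrices from a generic isometry.** -/
theorem irr_of_good [IsAlgClosed L] {A : Matrix (Fin m) (Fin m) L} (hA : A.IsSymm)
    (hd : A.det ≠ 0) (h2 : (2 : L) ≠ 0) (hm : m = 3 ∨ 5 ≤ m)
    {ρ : Γ →* Matrix (Fin m) (Fin m) L} (hρ : ∀ γ, (ρ γ).transpose * A * ρ γ = A)
    (hs : SIrrM ρ) (hc : ∃ γ, Good (ρ γ).charpoly)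
    {M : Submodule L (Matrix (Fin m) (Fin m) L)} (hM : M ≤ soM A)
    (hst : ∀ γ, ∀ X ∈ M, ρ γ * X * ρ γ⁻¹ ∈ M) : M = ⊥ ∨ M = soM A := by
  obtain ⟨γ₀, hgood⟩ := hc
  obtain ⟨v', hv, hb⟩ := exists_ob hA hd h2
  have hρρ : ρ γ₀ * ρ γ₀⁻¹ = 1 := by rw [← map_mul, mul_inv_cancel, map_one]
  have hρρ' : ρ γ₀⁻¹ * ρ γ₀ = 1 := by rw [← map_mul, inv_mul_cancel, map_one]
  obtain ⟨ι, _, _, v, a, s, hι, h⟩ := exists_EB hA hd h2 (hρ γ₀) hρρ hρρ' hgood
  let g : Γ →* End L (Fin m → L) :=
    { toFun := fun γ => Matrix.toLin' (ρ γ)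
      map_one' := by rw [map_one, Matrix.toLin'_one]; rfl
      map_mul' := fun γ δ => by rw [map_mul, Matrix.toLin'_mul]; rfl }
  have hgM : ∀ γ, g γ = Matrix.toLin' (ρ γ) := fun γ => rfl
  have hg : ∀ γ x, g γ x = (ρ γ).mulVec x := fun γ x => Matrix.toLin'_apply _ _
  have hMo : opS M ≤ so (bil A) := by
    intro X hX
    rw [mem_opS] at hX
    have h3 := toLin_mem_so.2 (hM hX)
    rwa [Matrix.toLin'_toMatrix'] at h3
  have hstM : ∀ γ, ∀ X ∈ opS M, g γ * X * g γ⁻¹ ∈ opS M := by
    intro γ X hX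
    rw [mem_opS] at hX ⊢
    rw [LinearMap.toMatrix'_mul, LinearMap.toMatrix'_mul, hgM, hgM,
      LinearMap.toMatrix'_toLin', LinearMap.toMatrix'_toLin']
    exact hst γ _ hX
  rcases main_op (g := g) (γ₀ := γ₀) h (fun γ x y => isom_of_matrix (hρ γ) x y) v' hv hb hm (by
      intro Δ h0 hi W hW
      refine hs Δ h0 (by rwa [hι] at hi) W fun γ hγ x hx => ?_
      rw [← hg]
      exact hW γ hγ x hx) hMo hstM with h1 | h1
  · left
    rw [eq_bot_iff]
    intro Y hY
    have h3 : Matrix.toLin' Y ∈ opS M := toLin_mem_opS.2 hY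
    rw [h1, Submodule.mem_bot] at h3
    rw [Submodule.mem_bot]
    exact (Matrix.toLin' : Matrix (Fin m) (Fin m) L ≃ₗ[L] _).map_eq_zero_iff.1 h3
  · right
    refine le_antisymm hM fun X hX => ?_
    rw [← toLin_mem_opS]
    exact h1 (toLin_mem_so.2 hX)

/-- **A virtually abelian group is not strongly irreducible** over an algebraically closed field. -/
theorem not_abelian [IsAlgClosed L] (hm : 2 ≤ m) {ρ : Γ →* Matrix (Fin m) (Fin m) L}
    {D : Subgroup Γ} (hD : ∀ a ∈ D, ∀ b ∈ D, ρ a * ρ b = ρ b * ρ a)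
    (hs : ∀ W : Submodule L (Fin m → L), (∀ γ ∈ D, ∀ x ∈ W, (ρ γ).mulVec x ∈ W) →
      W = ⊥ ∨ W = ⊤) : False := by
  have : Nonempty (Fin m) := ⟨⟨0, by omega⟩⟩
  have hsc : ∀ γ ∈ D, ∃ c : L, ∀ x, (ρ γ).mulVec x = c • x := by
    intro γ hγ
    obtain ⟨c, hc⟩ := Module.End.exists_eigenvalue (Matrix.toLin' (ρ γ))
    refine ⟨c, ?_⟩
    rcases hs (Module.End.eigenspace (Matrix.toLin' (ρ γ)) c) (fun δ hδ x hx => by
      rw [Module.End.mem_eigenspace_iff, Matrix.toLin'_apply] at hx ⊢
      rw [Matrix.mulVec_mulVec, hD γ hγ δ hδ, ← Matrix.mulVec_mulVec, hx, Matrix.mulVec_smul])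
      with h | h
    · exact absurd h hc
    · intro x
      have h1 : x ∈ Module.End.eigenspace (Matrix.toLin' (ρ γ)) c := by rw [h]; trivial
      rwa [Module.End.mem_eigenspace_iff, Matrix.toLin'_apply] at h1
  set x : Fin m → L := Pi.single ⟨0, by omega⟩ 1 with hx
  rcases hs (Submodule.span L {x}) (fun γ hγ y hy => by
    obtain ⟨c, hc⟩ := hsc γ hγ
    rw [hc]
    exact Submodule.smul_mem _ _ hy) with h | h
  · rw [Submodule.span_singleton_eq_bot] at h
    have h3 := congrFun h ⟨0, by omega⟩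
    rw [hx, Pi.single_eq_same] at h3
    exact one_ne_zero h3
  · have h3 : (Pi.single ⟨1, by omega⟩ 1 : Fin m → L) ∈ Submodule.span L {x} := by
      rw [h]
      trivial
    obtain ⟨c, hc⟩ := Submodule.mem_span_singleton.1 h3
    have h4 := congrFun hc ⟨1, by omega⟩
    rw [Pi.smul_apply, hx, Pi.single_eq_same, Pi.single_eq_of_ne (by
      intro h5
      have := congrArg Fin.val h5
      simp at this), smul_zero] at h4
    exact zero_ne_one h4

end Pool.Agent.H853.Root
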